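import Mathlib

/-!
# Lower bound for one sided extensions of lacunary symbols (multipliers of `ℓ^p`, `p ≠ 2`)
-/

set_option autoImplicit false

open Finset

namespace Pool.Agent.H35.Hankel

/-- The bilinear pairing on the window `[0, N)`. -/
noncomputable def B (N : ℕ) (a : ℤ → ℂ) (u v : ℕ → ℝ) : ℂ :=
  ∑ k ∈ range N, ∑ l ∈ range N, a ((l : ℤ) - k) * (u k : ℂ) * (v l : ℂ)

/-- Window bound. -/
def Bd (p q : ℝ) (N : ℕ) (a : ℤ → ℂ) (C : ℝ) : Prop :=
  ∀ u v : ℕ → ℝ, ‖B N a u v‖ ≤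
    C * (∑ k ∈ range N, |u k| ^ p) ^ (1 / p) * (∑ l ∈ range N, |v l| ^ q) ^ (1 / q)

/-- Doubling of a window vector. -/
def dbl (N : ℕ) (x y : ℝ) (u : ℕ → ℝ) (k : ℕ) : ℝ := if k < N then x * u k else y * u (k - N)

theorem dbl_lt {N : ℕ} {x y : ℝ} {u : ℕ → ℝ} {k : ℕ} (h : k < N) : dbl N x y u k = x * u k := by
  simp [dbl, h]

theorem dbl_add {N : ℕ} {x y : ℝ} {u : ℕ → ℝ} {k : ℕ} : dbl N x y u (N + k) = y * u k := by
  simp [dbl]

theorem sum_dbl (N : ℕ) (x y : ℝ) (u : ℕ → ℝ) (p : ℝ) :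
    ∑ k ∈ range (N + N), |dbl N x y u k| ^ p =
      (|x| ^ p + |y| ^ p) * ∑ k ∈ range N, |u k| ^ p := by
  rw [Finset.sum_range_add, add_mul, Finset.mul_sum, Finset.mul_sum]
  congr 1
  · apply Finset.sum_congr rfl
    intro k hk
    rw [dbl_lt (Finset.mem_range.mp hk), abs_mul, Real.mul_rpow (abs_nonneg _) (abs_nonneg _)]
  · apply Finset.sum_congr rfl
    intro k _
    rw [dbl_add, abs_mul, Real.mul_rpow (abs_nonneg _) (abs_nonneg _)]

theorem B_dbl (N : ℕ) (a : ℤ → ℂ) (u v : ℕ → ℝ) (x y x' y' : ℝ) :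
    B (N + N) a (dbl N x y u) (dbl N x' y' v) =
      ((x * x' + y * y' : ℝ) : ℂ) * B N a u v
      + ((x * y' : ℝ) : ℂ) * B N (fun n => a (n + N)) u v
      + ((y * x' : ℝ) : ℂ) * B N (fun n => a (n - N)) u v := by
  unfold B
  rw [Finset.sum_range_add]
  have h1 : ∑ k ∈ range N, ∑ l ∈ range (N + N),
      a ((l : ℤ) - k) * (dbl N x y u k : ℂ) * (dbl N x' y' v l : ℂ) =
      ((x * x' : ℝ) : ℂ) * (∑ k ∈ range N, ∑ l ∈ range N, a ((l : ℤ) - k) * (u k : ℂ) * (v l : ℂ))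
      + ((x * y' : ℝ) : ℂ) * (∑ k ∈ range N, ∑ l ∈ range N,
          a ((l : ℤ) - k + N) * (u k : ℂ) * (v l : ℂ)) := by
    rw [Finset.mul_sum, Finset.mul_sum, ← Finset.sum_add_distrib]
    apply Finset.sum_congr rfl
    intro k hk
    rw [Finset.sum_range_add, Finset.mul_sum, Finset.mul_sum]
    congr 1
    · apply Finset.sum_congr rfl
      intro l hl
      rw [dbl_lt (Finset.mem_range.mp hk), dbl_lt (Finset.mem_range.mp hl)]
      push_cast; ring
    · apply Finset.sum_congr rfl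
      intro l hl
      rw [dbl_lt (Finset.mem_range.mp hk), dbl_add]
      have : ((N + l : ℕ) : ℤ) - k = (l : ℤ) - k + N := by push_cast; ring
      rw [this]
      push_cast; ring
  have h2 : ∑ k ∈ range N, ∑ l ∈ range (N + N),
      a ((l : ℤ) - ((N + k : ℕ) : ℤ)) * (dbl N x y u (N + k) : ℂ) * (dbl N x' y' v l : ℂ) =
      ((y * x' : ℝ) : ℂ) * (∑ k ∈ range N, ∑ l ∈ range N,
          a ((l : ℤ) - k - N) * (u k : ℂ) * (v l : ℂ))
      + ((y * y' : ℝ) : ℂ) * (∑ k ∈ range N, ∑ l ∈ range N,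
          a ((l : ℤ) - k) * (u k : ℂ) * (v l : ℂ)) := by
    rw [Finset.mul_sum, Finset.mul_sum, ← Finset.sum_add_distrib]
    apply Finset.sum_congr rfl
    intro k hk
    rw [Finset.sum_range_add, Finset.mul_sum, Finset.mul_sum]
    congr 1
    · apply Finset.sum_congr rfl
      intro l hl
      rw [dbl_add, dbl_lt (Finset.mem_range.mp hl)]
      have : (l : ℤ) - ((N + k : ℕ) : ℤ) = (l : ℤ) - k - N := by push_cast; ring
      rw [this]
      push_cast; ring
    · apply Finset.sum_congr rfl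
      intro l hl
      rw [dbl_add, dbl_add]
      have : ((N + l : ℕ) : ℤ) - ((N + k : ℕ) : ℤ) = (l : ℤ) - k := by push_cast; ring
      rw [this]
      push_cast; ring
  rw [h1, h2]
  push_cast; ring

theorem B_add (N : ℕ) (a b : ℤ → ℂ) (κ : ℂ) (u v : ℕ → ℝ) :
    B N (fun n => a n + κ * b n) u v = B N a u v + κ * B N b u v := by
  unfold B
  rw [Finset.mul_sum, ← Finset.sum_add_distrib]
  apply Finset.sum_congr rfl
  intro k _
  rw [Finset.mul_sum, ← Finset.sum_add_distrib]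
  apply Finset.sum_congr rfl
  intro l _
  ring

/-- The one step inequality. -/
theorem step {p q : ℝ} (hpq : p.HolderConjugate q) {s t : ℝ} (hs : 0 < s) (ht : 0 < t)
    (hst : s ^ p + t ^ p = 1) {N : ℕ} {a : ℤ → ℂ} {C : ℝ} (h : Bd p q (N + N) a C) :
    Bd p q N (fun n => a n + ((s * t ^ (p - 1) - t * s ^ (p - 1) : ℝ) : ℂ) * a (n + N)) C := by
  intro u v
  set s' := s ^ (p - 1) with hs'
  set t' := t ^ (p - 1) with ht'
  have hs'pos : 0 < s' := Real.rpow_pos_of_pos hs _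
  have ht'pos : 0 < t' := Real.rpow_pos_of_pos ht _
  have hss : s * s' = s ^ p := by
    rw [hs', mul_comm, ← Real.rpow_add_one hs.ne']; ring_nf
  have htt : t * t' = t ^ p := by
    rw [ht', mul_comm, ← Real.rpow_add_one ht.ne']; ring_nf
  have hq : (p - 1) * q = p := by
    have := hpq.sub_one_mul_conj
    exact this
  have hsq : s' ^ q = s ^ p := by rw [hs', ← Real.rpow_mul hs.le, hq]
  have htq : t' ^ q = t ^ p := by rw [ht', ← Real.rpow_mul ht.le, hq]
  have hDpos : 0 < t * s' + s * t' := by positivity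
  set w0 := s * t' / (t * s' + s * t') with hw0
  set w1 := t * s' / (t * s' + s * t') with hw1
  have hw0n : 0 ≤ w0 := by positivity
  have hw1n : 0 ≤ w1 := by positivity
  have hw : w0 + w1 = 1 := by
    rw [hw0, hw1, ← add_div, add_comm (s * t')]
    exact div_self hDpos.ne'
  have hA : w0 * (s * s' + t * t') + w1 * (t * t' + s * s') = 1 := by
    rw [hss, htt, add_comm (t ^ p), hst]; linarith
  have hB : w0 * (s * t') - w1 * (t * s') = s * t' - t * s' := by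
    rw [hw0, hw1]; field_simp; ring
  have hC : w0 * (t * s') - w1 * (s * t') = 0 := by
    rw [hw0, hw1]; field_simp; ring
  have e0 := B_dbl N a u v s t s' t'
  have e1 := B_dbl N a u v t (-s) t' (-s')
  have key : B N (fun n => a n + ((s * t' - t * s' : ℝ) : ℂ) * a (n + N)) u v =
      (w0 : ℂ) * B (N + N) a (dbl N s t u) (dbl N s' t' v)
      + (w1 : ℂ) * B (N + N) a (dbl N t (-s) u) (dbl N t' (-s') v) := by
    rw [B_add N a (fun n => a (n + N)), e0, e1]
    have hA' : (w0 : ℂ) * ((s * s' + t * t' : ℝ) : ℂ) + (w1 : ℂ) * ((t * t' + s * s' : ℝ) : ℂ) = 1 := by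
      exact_mod_cast hA
    have hB' : (w0 : ℂ) * ((s * t' : ℝ) : ℂ) - (w1 : ℂ) * ((t * s' : ℝ) : ℂ)
        = ((s * t' - t * s' : ℝ) : ℂ) := by
      exact_mod_cast hB
    have hC' : (w0 : ℂ) * ((t * s' : ℝ) : ℂ) - (w1 : ℂ) * ((s * t' : ℝ) : ℂ) = 0 := by
      exact_mod_cast hC
    rw [← hB']
    have e2 : ((t * t' + -s * -s' : ℝ) : ℂ) = ((t * t' + s * s' : ℝ) : ℂ) := by
      congr 1; ring
    have e3 : ((t * -s' : ℝ) : ℂ) = -((t * s' : ℝ) : ℂ) := by push_cast; ring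
    have e4 : ((-s * t' : ℝ) : ℂ) = -((s * t' : ℝ) : ℂ) := by push_cast; ring
    rw [e2, e3, e4]
    linear_combination (-(B N a u v)) * hA' - (B N (fun n => a (n - N)) u v) * hC'
  rw [key]
  have n0 := h (dbl N s t u) (dbl N s' t' v)
  have n1 := h (dbl N t (-s) u) (dbl N t' (-s') v)
  rw [sum_dbl, sum_dbl] at n0 n1
  rw [abs_of_pos hs, abs_of_pos ht, abs_of_pos hs'pos, abs_of_pos ht'pos, hsq, htq, hst, one_mul,
    one_mul] at n0
  rw [abs_neg, abs_neg, abs_of_pos hs, abs_of_pos ht, abs_of_pos hs'pos, abs_of_pos ht'pos, hsq,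
    htq, add_comm (t ^ p), hst, one_mul, one_mul] at n1
  calc ‖(w0 : ℂ) * B (N + N) a (dbl N s t u) (dbl N s' t' v)
      + (w1 : ℂ) * B (N + N) a (dbl N t (-s) u) (dbl N t' (-s') v)‖
      ≤ w0 * ‖B (N + N) a (dbl N s t u) (dbl N s' t' v)‖
        + w1 * ‖B (N + N) a (dbl N t (-s) u) (dbl N t' (-s') v)‖ := by
        refine le_trans (norm_add_le _ _) ?_
        rw [norm_mul, norm_mul, Complex.norm_real, Complex.norm_real, Real.norm_of_nonneg hw0n,
          Real.norm_of_nonneg hw1n]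
    _ ≤ w0 * (C * (∑ k ∈ range N, |u k| ^ p) ^ (1 / p) * (∑ l ∈ range N, |v l| ^ q) ^ (1 / q))
        + w1 * (C * (∑ k ∈ range N, |u k| ^ p) ^ (1 / p)
          * (∑ l ∈ range N, |v l| ^ q) ^ (1 / q)) := by
        gcongr
    _ = C * (∑ k ∈ range N, |u k| ^ p) ^ (1 / p) * (∑ l ∈ range N, |v l| ^ q) ^ (1 / q) := by
        rw [← add_mul, hw, one_mul]

/-- The recursive functional. -/
noncomputable def R (κ : ℝ) : ℕ → (ℤ → ℂ) → ℂ
  | 0, a => a 0
  | d + 1, a => R κ d (fun n => a n + (κ : ℂ) * a (n + ((2 ^ d : ℕ) : ℤ)))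

theorem R_bound {p q : ℝ} (hpq : p.HolderConjugate q) {s t : ℝ} (hs : 0 < s) (ht : 0 < t)
    (hst : s ^ p + t ^ p = 1) (C : ℝ) : ∀ (d : ℕ) (a : ℤ → ℂ), Bd p q (2 ^ d) a C →
      ‖R (s * t ^ (p - 1) - t * s ^ (p - 1)) d a‖ ≤ C := by
  intro d
  induction d with
  | zero =>
    intro a h
    have h1 := h (fun _ => 1) (fun _ => 1)
    simpa [B, R] using h1
  | succ d ih =>
    intro a h
    have e : 2 ^ (d + 1) = 2 ^ d + 2 ^ d := by ring
    rw [e] at h
    have h2 := step hpq hs ht hst h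
    exact ih _ h2

theorem R_lin (κ : ℝ) : ∀ (d : ℕ) (a b : ℤ → ℂ) (c : ℂ),
    R κ d (fun n => a n + c * b n) = R κ d a + c * R κ d b := by
  intro d
  induction d with
  | zero => intro a b c; rfl
  | succ d ih =>
    intro a b c
    simp only [R]
    have e : (fun n => a n + c * b n + (κ : ℂ) * (a (n + ((2 ^ d : ℕ) : ℤ))
        + c * b (n + ((2 ^ d : ℕ) : ℤ)))) =
        (fun n => (a n + (κ : ℂ) * a (n + ((2 ^ d : ℕ) : ℤ)))
          + c * (b n + (κ : ℂ) * b (n + ((2 ^ d : ℕ) : ℤ)))) := by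
      funext n; ring
    rw [e]
    exact ih (fun n => a n + (κ : ℂ) * a (n + ((2 ^ d : ℕ) : ℤ)))
      (fun n => b n + (κ : ℂ) * b (n + ((2 ^ d : ℕ) : ℤ))) c

theorem R_zero (κ : ℝ) : ∀ (d : ℕ) (b : ℤ → ℂ), (∀ m : ℕ, 0 < m → m < 2 ^ d → b m = 0) →
    R κ d b = b 0 := by
  intro d
  induction d with
  | zero => intro b _; rfl
  | succ d ih =>
    intro b hb
    simp only [R]
    have hlt : 2 ^ d < 2 ^ (d + 1) := Nat.pow_lt_pow_right (by norm_num) (by omega)
    have hpos : 0 < 2 ^ d := by positivity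
    rw [ih]
    · have : b (0 + ((2 ^ d : ℕ) : ℤ)) = 0 := by
        rw [zero_add]
        exact hb (2 ^ d) hpos hlt
      rw [this]; ring
    · intro m hm hmd
      have e : 2 ^ (d + 1) = 2 ^ d + 2 ^ d := by ring
      have h1 : b m = 0 := hb m hm (by omega)
      have h2 : b ((m : ℤ) + ((2 ^ d : ℕ) : ℤ)) = 0 := by
        have := hb (m + 2 ^ d) (by omega) (by omega)
        push_cast at this ⊢
        exact this
      rw [h1, h2]; ring

theorem R_eval (κ : ℝ) (a : ℤ → ℂ) (ha : ∀ m : ℕ, 0 < m → (∀ j : ℕ, m ≠ 2 ^ j) → a m = 0) :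
    ∀ d : ℕ, R κ d a = a 0 + (κ : ℂ) * ∑ j ∈ range d, a ((2 ^ j : ℕ) : ℤ) := by
  intro d
  induction d with
  | zero => simp [R]
  | succ d ih =>
    simp only [R]
    rw [R_lin κ d a (fun n => a (n + ((2 ^ d : ℕ) : ℤ))) κ, ih, Finset.sum_range_succ]
    rw [R_zero κ d (fun n => a (n + ((2 ^ d : ℕ) : ℤ)))]
    · rw [zero_add]; ring
    · intro m hm hmd
      have h1 := ha (m + 2 ^ d) (by omega) (by
        intro j hj
        have h2 : 2 ^ d < 2 ^ j := by omega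
        have h3 : 2 ^ j < 2 ^ (d + 1) := by
          have e : 2 ^ (d + 1) = 2 ^ d + 2 ^ d := by ring
          omega
        have h4 := (Nat.pow_lt_pow_iff_right (by norm_num : 1 < 2)).mp h2
        have h5 := (Nat.pow_lt_pow_iff_right (by norm_num : 1 < 2)).mp h3
        omega)
      push_cast at h1 ⊢
      exact h1

/-- Existence of good parameters. -/
theorem params {p : ℝ} (hp : 1 < p) (hp2 : p ≠ 2) :
    ∃ s t : ℝ, 0 < s ∧ 0 < t ∧ s ^ p + t ^ p = 1 ∧ 0 < s * t ^ (p - 1) - t * s ^ (p - 1) := by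
  have hp0 : 0 < p := by linarith
  -- two numbers x<y with x^p+y^p=1
  set x : ℝ := (1 / 3 : ℝ) ^ (1 / p) with hx
  set y : ℝ := (2 / 3 : ℝ) ^ (1 / p) with hy
  have hxpos : 0 < x := Real.rpow_pos_of_pos (by norm_num) _
  have hypos : 0 < y := Real.rpow_pos_of_pos (by norm_num) _
  have hxy : x < y := Real.rpow_lt_rpow (by norm_num) (by norm_num) (by positivity)
  have hxp : x ^ p = 1 / 3 := by
    rw [hx, ← Real.rpow_mul (by norm_num)]
    rw [one_div_mul_cancel hp0.ne', Real.rpow_one]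
  have hyp : y ^ p = 2 / 3 := by
    rw [hy, ← Real.rpow_mul (by norm_num)]
    rw [one_div_mul_cancel hp0.ne', Real.rpow_one]
  -- s t^{p-1} - t s^{p-1} = s t (t^{p-2} - s^{p-2})
  have fact : ∀ s t : ℝ, 0 < s → 0 < t →
      s * t ^ (p - 1) - t * s ^ (p - 1) = s * t * (t ^ (p - 2) - s ^ (p - 2)) := by
    intro s t hs ht
    have h1 : t ^ (p - 1) = t ^ (p - 2) * t := by
      rw [← Real.rpow_add_one ht.ne']; ring_nf
    have h2 : s ^ (p - 1) = s ^ (p - 2) * s := by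
      rw [← Real.rpow_add_one hs.ne']; ring_nf
    rw [h1, h2]; ring
  rcases lt_or_gt_of_ne hp2 with h | h
  · -- p < 2 : s = y, t = x
    refine ⟨y, x, hypos, hxpos, by rw [hxp, hyp]; norm_num, ?_⟩
    rw [fact y x hypos hxpos]
    have : y ^ (p - 2) < x ^ (p - 2) :=
      Real.rpow_lt_rpow_of_neg hxpos hxy (by linarith)
    have h3 : 0 < x ^ (p - 2) - y ^ (p - 2) := by linarith
    positivity
  · refine ⟨x, y, hxpos, hypos, by rw [hxp, hyp]; norm_num, ?_⟩
    rw [fact x y hxpos hypos]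
    have : x ^ (p - 2) < y ^ (p - 2) := Real.rpow_lt_rpow hxpos.le hxy (by linarith)
    have h3 : 0 < y ^ (p - 2) - x ^ (p - 2) := by linarith
    positivity

/-- Main lower bound: no sequence with harmonic lacunary positive part satisfies window bounds. -/
theorem no_extension {p q : ℝ} (hpq : p.HolderConjugate q) (hp2 : p ≠ 2) (a : ℤ → ℂ)
    (h0 : a 0 = 0) (ha : ∀ m : ℕ, 0 < m → (∀ j : ℕ, m ≠ 2 ^ j) → a m = 0)
    (hj : ∀ j : ℕ, a ((2 ^ j : ℕ) : ℤ) = ((1 / ((j : ℝ) + 1) : ℝ) : ℂ))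
    (C : ℝ) (hC : ∀ N : ℕ, Bd p q N a C) : False := by
  obtain ⟨s, t, hs, ht, hst, hκ⟩ := params hpq.lt hp2
  set κ := s * t ^ (p - 1) - t * s ^ (p - 1) with hκdef
  have h1 : ∀ d : ℕ, κ * ∑ j ∈ range d, (1 / ((j : ℝ) + 1)) ≤ C := by
    intro d
    have h2 := R_bound hpq hs ht hst C d a (hC _)
    rw [← hκdef, R_eval κ a ha d, h0, zero_add] at h2
    have h3 : (κ : ℂ) * ∑ j ∈ range d, a ((2 ^ j : ℕ) : ℤ) =
        ((κ * ∑ j ∈ range d, (1 / ((j : ℝ) + 1)) : ℝ) : ℂ) := by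
      rw [Complex.ofReal_mul, Complex.ofReal_sum]
      congr 1
      apply Finset.sum_congr rfl
      intro j _
      rw [hj j]
    rw [h3, Complex.norm_real] at h2
    exact le_trans (le_abs_self _) h2
  have h4 := Real.tendsto_sum_range_one_div_nat_succ_atTop
  have h5 := (h4.eventually (Filter.eventually_gt_atTop (C / κ))).exists
  obtain ⟨d, hd⟩ := h5
  have h6 := h1 d
  rw [div_lt_iff₀ hκ] at hd
  linarith

end Pool.Agent.H35.Hankel
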