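import Mathlib

/-!
# Upper bound for lacunary Hankel operators on `ℓ^p`
-/

set_option autoImplicit false

open MeasureTheory
open scoped ENNReal

namespace Pool.Agent.H35.Hankel

theorem tsum_holder {p q : ℝ} (hpq : p.HolderConjugate q) (x y : ℕ → ℝ≥0∞) :
    ∑' j, x j * y j ≤ (∑' j, x j ^ p) ^ (1 / p) * (∑' j, y j ^ q) ^ (1 / q) := by
  have h := ENNReal.lintegral_mul_le_Lp_mul_Lq (Measure.count : Measure ℕ) hpq
    (f := x) (g := y) (measurable_of_countable _).aemeasurable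
    (measurable_of_countable _).aemeasurable
  simpa [lintegral_count] using h

theorem tsum_shift (G : ℤ → ℝ≥0∞) (m : ℤ) : ∑' n, G (m + n) = ∑' n, G n :=
  (Equiv.addLeft m).tsum_eq G

theorem pow_two_aux {i j : ℕ} {a : ℤ} (h1 : a ≤ (2 : ℤ) ^ i) (h2 : (2 : ℤ) ^ i < 2 * a)
    (h3 : a ≤ (2 : ℤ) ^ j) (h4 : (2 : ℤ) ^ j < 2 * a) : i = j := by
  rcases lt_trichotomy i j with h | h | h
  · exfalso
    have : (2 : ℤ) ^ (i + 1) ≤ 2 ^ j := pow_le_pow_right₀ (by norm_num) h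
    rw [pow_succ] at this
    linarith
  · exact h
  · exfalso
    have : (2 : ℤ) ^ (j + 1) ≤ 2 ^ i := pow_le_pow_right₀ (by norm_num) h
    rw [pow_succ] at this
    linarith

/-- The near part. -/
noncomputable def T1 (c : ℕ → ℝ≥0∞) (G : ℤ → ℝ≥0∞) (n : ℤ) : ℝ≥0∞ :=
  ∑' j : ℕ, if (2 : ℤ) ^ j < -2 * n then c j * G ((2 : ℤ) ^ j + n) else 0

/-- The far part. -/
noncomputable def T2 (c : ℕ → ℝ≥0∞) (G : ℤ → ℝ≥0∞) (n : ℤ) : ℝ≥0∞ :=
  ∑' j : ℕ, if -2 * n ≤ (2 : ℤ) ^ j then c j * G ((2 : ℤ) ^ j + n) else 0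

theorem split (c : ℕ → ℝ≥0∞) (G : ℤ → ℝ≥0∞) (n : ℤ) :
    ∑' j : ℕ, c j * G ((2 : ℤ) ^ j + n) = T1 c G n + T2 c G n := by
  unfold T1 T2
  rw [← ENNReal.tsum_add]
  congr 1
  funext j
  by_cases h : (2 : ℤ) ^ j < -2 * n
  · have h' : ¬ (-2 * n ≤ (2 : ℤ) ^ j) := not_le.mpr h
    rw [if_pos h, if_neg h', add_zero]
  · have h' : -2 * n ≤ (2 : ℤ) ^ j := not_lt.mp h
    rw [if_neg h, if_pos h', zero_add]

theorem T1_bound (p : ℝ) (hp : 1 < p) (c : ℕ → ℝ≥0∞) (G : ℤ → ℝ≥0∞) (hG : ∀ n < 0, G n = 0)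
    (n : ℤ) : T1 c G n ^ p ≤ ∑' j : ℕ, (c j * G ((2 : ℤ) ^ j + n)) ^ p := by
  have hp0 : 0 < p := by linarith
  by_cases h : ∃ i : ℕ, -n ≤ (2 : ℤ) ^ i ∧ (2 : ℤ) ^ i < -2 * n
  · obtain ⟨i, hi1, hi2⟩ := h
    have h1 : T1 c G n = c i * G ((2 : ℤ) ^ i + n) := by
      unfold T1
      rw [tsum_eq_single i]
      · simp only [hi2, if_true]
      · intro j hj
        by_cases hj2 : (2 : ℤ) ^ j < -2 * n
        · simp only [hj2, if_true]
          have : (2 : ℤ) ^ j + n < 0 := by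
            by_contra hcon
            push Not at hcon
            exact hj (pow_two_aux (a := -n) (by linarith) (by linarith) hi1 (by linarith))
          rw [hG _ this, mul_zero]
        · simp only [hj2, if_false]
    rw [h1]
    exact ENNReal.le_tsum i
  · push Not at h
    have h1 : T1 c G n = 0 := by
      unfold T1
      rw [ENNReal.tsum_eq_zero]
      intro j
      by_cases hj2 : (2 : ℤ) ^ j < -2 * n
      · simp only [hj2, if_true]
        have : (2 : ℤ) ^ j + n < 0 := by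
          by_contra hcon
          push Not at hcon
          have := h j (by linarith)
          linarith
        rw [hG _ this, mul_zero]
      · simp only [hj2, if_false]
    rw [h1, ENNReal.zero_rpow_of_pos hp0]
    exact zero_le

theorem T1_sum (p : ℝ) (hp : 1 < p) (c : ℕ → ℝ≥0∞) (G : ℤ → ℝ≥0∞) (hG : ∀ n < 0, G n = 0) :
    ∑' n : ℤ, T1 c G n ^ p ≤ (∑' j, c j ^ p) * ∑' n, G n ^ p := by
  have hp0 : 0 ≤ p := by linarith
  calc ∑' n : ℤ, T1 c G n ^ p ≤ ∑' n : ℤ, ∑' j : ℕ, (c j * G ((2 : ℤ) ^ j + n)) ^ p :=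
        ENNReal.tsum_le_tsum fun n => T1_bound p hp c G hG n
    _ = ∑' j : ℕ, ∑' n : ℤ, (c j * G ((2 : ℤ) ^ j + n)) ^ p := ENNReal.tsum_comm
    _ = ∑' j : ℕ, c j ^ p * ∑' n : ℤ, G n ^ p := by
        congr 1
        funext j
        rw [← tsum_shift (fun n => G n ^ p) ((2 : ℤ) ^ j), ← ENNReal.tsum_mul_left]
        congr 1
        funext n
        exact ENNReal.mul_rpow_of_nonneg _ _ hp0
    _ = (∑' j, c j ^ p) * ∑' n, G n ^ p := ENNReal.tsum_mul_right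

theorem T2_bound {p q : ℝ} (hpq : p.HolderConjugate q) (c : ℕ → ℝ≥0∞) (G : ℤ → ℝ≥0∞)
    (n : ℤ) : T2 c G n ^ p ≤ (∑' j, c j ^ q) ^ (p / q) *
      ∑' j : ℕ, (if -2 * n ≤ (2 : ℤ) ^ j then G ((2 : ℤ) ^ j + n) else 0) ^ p := by
  have hp0 : 0 < p := hpq.pos
  have h1 : T2 c G n = ∑' j : ℕ, (if -2 * n ≤ (2 : ℤ) ^ j then G ((2 : ℤ) ^ j + n) else 0) * c j := by
    unfold T2
    congr 1
    funext j
    by_cases h : -2 * n ≤ (2 : ℤ) ^ j
    · simp only [h, if_true]; rw [mul_comm]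
    · simp only [h, if_false]; rw [zero_mul]
  rw [h1]
  have h2 := tsum_holder hpq
    (fun j : ℕ => if -2 * n ≤ (2 : ℤ) ^ j then G ((2 : ℤ) ^ j + n) else 0) c
  calc _ ≤ ((∑' j : ℕ, (if -2 * n ≤ (2 : ℤ) ^ j then G ((2 : ℤ) ^ j + n) else 0) ^ p) ^ (1 / p)
        * (∑' j, c j ^ q) ^ (1 / q)) ^ p := ENNReal.rpow_le_rpow h2 hp0.le
    _ = _ := by
      rw [ENNReal.mul_rpow_of_nonneg _ _ hp0.le, ← ENNReal.rpow_mul, ← ENNReal.rpow_mul,
        one_div_mul_cancel hp0.ne', ENNReal.rpow_one, mul_comm, one_div_mul_eq_div]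

theorem T2_sum {p q : ℝ} (hpq : p.HolderConjugate q) (c : ℕ → ℝ≥0∞) (G : ℤ → ℝ≥0∞) :
    ∑' n : ℤ, (if n < 0 then T2 c G n ^ p else 0) ≤
      (∑' j, c j ^ q) ^ (p / q) * ∑' n, G n ^ p := by
  have hp0 : 0 < p := hpq.pos
  have key : ∑' n : ℤ, ∑' j : ℕ,
      (if n < 0 ∧ -2 * n ≤ (2 : ℤ) ^ j then G ((2 : ℤ) ^ j + n) ^ p else 0) ≤ ∑' n, G n ^ p := by
    rw [ENNReal.tsum_comm]
    have e1 : ∀ j : ℕ, ∑' n : ℤ,
        (if n < 0 ∧ -2 * n ≤ (2 : ℤ) ^ j then G ((2 : ℤ) ^ j + n) ^ p else 0) =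
        ∑' m : ℤ, (if m < (2 : ℤ) ^ j ∧ (2 : ℤ) ^ j ≤ 2 * m then G m ^ p else 0) := by
      intro j
      rw [← tsum_shift (fun m : ℤ => if m < (2 : ℤ) ^ j ∧ (2 : ℤ) ^ j ≤ 2 * m
        then G m ^ p else 0) ((2 : ℤ) ^ j)]
      congr 1
      funext n
      have e2 : (n < 0 ∧ -2 * n ≤ (2 : ℤ) ^ j) ↔
          ((2 : ℤ) ^ j + n < (2 : ℤ) ^ j ∧ (2 : ℤ) ^ j ≤ 2 * ((2 : ℤ) ^ j + n)) := by
        constructor
        · rintro ⟨h1, h2⟩; constructor <;> linarith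
        · rintro ⟨h1, h2⟩; constructor <;> linarith
      simp only [e2]
    simp only [e1]
    rw [ENNReal.tsum_comm]
    apply ENNReal.tsum_le_tsum
    intro m
    by_cases h : ∃ i : ℕ, m < (2 : ℤ) ^ i ∧ (2 : ℤ) ^ i ≤ 2 * m
    · obtain ⟨i, hi1, hi2⟩ := h
      rw [tsum_eq_single i]
      · simp only [hi1, hi2, and_self, if_true]; exact le_rfl
      · intro j hj
        have : ¬ (m < (2 : ℤ) ^ j ∧ (2 : ℤ) ^ j ≤ 2 * m) := by
          rintro ⟨h1, h2⟩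
          apply hj
          exact pow_two_aux (a := m + 1) (by linarith) (by linarith) (by linarith) (by linarith)
        simp only [this, if_false]
    · push Not at h
      have : ∀ j : ℕ, (if m < (2 : ℤ) ^ j ∧ (2 : ℤ) ^ j ≤ 2 * m then G m ^ p else 0) = 0 := by
        intro j
        have : ¬ (m < (2 : ℤ) ^ j ∧ (2 : ℤ) ^ j ≤ 2 * m) := by
          rintro ⟨h1, h2⟩
          have := h j h1
          linarith
        simp only [this, if_false]
      simp only [this, tsum_zero]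
      exact zero_le
  calc ∑' n : ℤ, (if n < 0 then T2 c G n ^ p else 0)
      ≤ ∑' n : ℤ, (∑' j, c j ^ q) ^ (p / q) * ∑' j : ℕ,
          (if n < 0 ∧ -2 * n ≤ (2 : ℤ) ^ j then G ((2 : ℤ) ^ j + n) ^ p else 0) := by
        apply ENNReal.tsum_le_tsum
        intro n
        by_cases hn : n < 0
        · simp only [hn, if_true, true_and]
          refine le_trans (T2_bound hpq c G n) ?_
          apply le_of_eq
          congr 1
          congr 1
          funext j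
          by_cases h : -2 * n ≤ (2 : ℤ) ^ j
          · simp only [h, if_true]
          · simp only [h, if_false]; exact ENNReal.zero_rpow_of_pos hp0
        · simp only [hn, if_false]; exact zero_le
    _ = (∑' j, c j ^ q) ^ (p / q) * ∑' n : ℤ, ∑' j : ℕ,
          (if n < 0 ∧ -2 * n ≤ (2 : ℤ) ^ j then G ((2 : ℤ) ^ j + n) ^ p else 0) :=
        ENNReal.tsum_mul_left
    _ ≤ _ := by gcongr

theorem hankel_sum {p q : ℝ} (hpq : p.HolderConjugate q) (c : ℕ → ℝ≥0∞) (G : ℤ → ℝ≥0∞)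
    (hG : ∀ n < 0, G n = 0) :
    ∑' n : ℤ, (if n < 0 then (∑' j : ℕ, c j * G ((2 : ℤ) ^ j + n)) ^ p else 0) ≤
      (2 : ℝ≥0∞) ^ (p - 1) * ((∑' j, c j ^ p) + (∑' j, c j ^ q) ^ (p / q)) * ∑' n, G n ^ p := by
  have hp : 1 < p := hpq.lt
  calc ∑' n : ℤ, (if n < 0 then (∑' j : ℕ, c j * G ((2 : ℤ) ^ j + n)) ^ p else 0)
      ≤ ∑' n : ℤ, ((2 : ℝ≥0∞) ^ (p - 1) * (T1 c G n ^ p + (if n < 0 then T2 c G n ^ p else 0))) := by
        apply ENNReal.tsum_le_tsum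
        intro n
        by_cases hn : n < 0
        · simp only [hn, if_true]
          rw [split]
          exact ENNReal.rpow_add_le_mul_rpow_add_rpow _ _ hp.le
        · simp only [hn, if_false]; exact zero_le
    _ = (2 : ℝ≥0∞) ^ (p - 1) * (∑' n : ℤ, T1 c G n ^ p
          + ∑' n : ℤ, (if n < 0 then T2 c G n ^ p else 0)) := by
        rw [ENNReal.tsum_mul_left, ENNReal.tsum_add]
    _ ≤ (2 : ℝ≥0∞) ^ (p - 1) * ((∑' j, c j ^ p) * ∑' n, G n ^ p
          + (∑' j, c j ^ q) ^ (p / q) * ∑' n, G n ^ p) := by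
        gcongr
        · exact T1_sum p hp c G hG
        · exact T2_sum hpq c G
    _ = _ := by rw [← add_mul, ← mul_assoc]

end Pool.Agent.H35.Hankel
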