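import Mathlib

/-!
# The set generated from 1 by x ↦ 2x, 3x+2, 6x+3 has lower density zero

Words in the letters `L : y ↦ 2y`, `M : y ↦ 6y+3`, `R : y ↦ 3y+2`.
-/

set_option autoImplicit false

namespace Pool.Agent.H35.Klarner

/-- The three letters. -/
inductive Lt
  | L
  | M
  | R
deriving DecidableEq

/-- Action of a letter on natural numbers. -/
def act : Lt → ℕ → ℕ
  | Lt.L, y => 2 * y
  | Lt.M, y => 6 * y + 3
  | Lt.R, y => 3 * y + 2

/-- Multiplier of a letter. -/
def mul : Lt → ℕ
  | Lt.L => 2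
  | Lt.M => 6
  | Lt.R => 3

/-- Action of a word, the head letter being applied last. -/
def app : List Lt → ℕ → ℕ
  | [], y => y
  | a :: w, y => act a (app w y)

/-- Multiplier of a word. -/
def sc : List Lt → ℕ
  | [] => 1
  | a :: w => mul a * sc w

theorem app_append (w v : List Lt) (y : ℕ) : app (w ++ v) y = app w (app v y) := by
  induction w with
  | nil => rfl
  | cons a w ih => simp [app, ih]

theorem sc_append (w v : List Lt) : sc (w ++ v) = sc w * sc v := by
  induction w with
  | nil => simp [sc]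
  | cons a w ih => simp [sc, ih, mul_assoc]

theorem act_add (a : Lt) (y t : ℕ) : act a (y + t) = act a y + mul a * t := by
  cases a <;> simp [act, mul] <;> ring

theorem app_add (w : List Lt) (y t : ℕ) : app w (y + t) = app w y + sc w * t := by
  induction w generalizing t with
  | nil => simp [app, sc]
  | cons a w ih => simp [app, sc, ih, act_add, mul_assoc]

theorem mul_pos' (a : Lt) : 0 < mul a := by cases a <;> simp [mul]

theorem sc_pos (w : List Lt) : 0 < sc w := by
  induction w with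
  | nil => simp [sc]
  | cons a w ih => simp only [sc]; exact Nat.mul_pos (mul_pos' a) ih

theorem act_inj (a : Lt) {x y : ℕ} (h : act a x = act a y) : x = y := by
  cases a <;> simp [act] at h <;> omega

/-- Phase two: descending to a left aligned position. -/
theorem phaseTwo (b : ℕ) : ∀ y' : ℕ, y' % 3 ≠ 0 →
    ∃ (w : List Lt) (n : ℕ), app w (y' / 3 ^ b) = 2 ^ n * y' ∧ sc w = 2 ^ n * 3 ^ b := by
  induction b with
  | zero =>
    intro y' _
    exact ⟨[], 0, by simp [app], by simp [sc]⟩
  | succ b ihb =>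
    -- inner strong induction on 3^(b+1) - y' % 3^(b+1)
    have key : ∀ m : ℕ, ∀ y' : ℕ, 3 ^ (b + 1) - y' % 3 ^ (b + 1) ≤ m → y' % 3 ≠ 0 →
        ∃ (w : List Lt) (n : ℕ),
          app w (y' / 3 ^ (b + 1)) = 2 ^ n * y' ∧ sc w = 2 ^ n * 3 ^ (b + 1) := by
      intro m
      induction m with
      | zero =>
        intro y' hm _
        exfalso
        have : y' % 3 ^ (b + 1) < 3 ^ (b + 1) := Nat.mod_lt _ (by positivity)
        omega
      | succ m ihm =>
        intro y' hm h3
        set P : ℕ := 3 ^ b with hP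
        have hPpos : 0 < P := by positivity
        have hP1 : 3 ^ (b + 1) = 3 * P := by rw [hP]; ring
        rw [hP1] at hm ⊢
        set y := y' / (3 * P) with hy
        set r := y' % (3 * P) with hr
        have hdecomp : 3 * P * y + r = y' := Nat.div_add_mod y' (3 * P)
        have hrlt : r < 3 * P := Nat.mod_lt _ (by positivity)
        have hrpos : 0 < r := by
          rcases Nat.eq_zero_or_pos r with h0 | h0
          · exfalso
            apply h3
            rw [← hdecomp, h0]
            have : 3 * P * y + 0 = 3 * (P * y) := by ring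
            rw [this]
            exact Nat.mul_mod_right 3 _
          · exact h0
        by_cases h1 : 2 * r < 3 * P
        · -- L step
          have hdiv : 2 * y' / (3 * P) = 2 * y := by
            rw [Nat.div_eq_iff (by positivity)]
            constructor
            · nlinarith
            · have : 2 * y' = 2 * (3 * P * y) + 2 * r := by omega
              have h4 : 2 * y * (3 * P) = 2 * (3 * P * y) := by ring
              omega
          have hmod : 2 * y' % (3 * P) = 2 * r := by
            have h5 := Nat.div_add_mod (2 * y') (3 * P)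
            rw [hdiv] at h5
            have h4 : 3 * P * (2 * y) = 2 * (3 * P * y) := by ring
            omega
          obtain ⟨w, n, hw, hs⟩ := ihm (2 * y') (by rw [hP1, hmod]; omega) (by omega)
          rw [hP1, hdiv] at hw
          rw [hP1] at hs
          refine ⟨w ++ [Lt.L], n + 1, ?_, ?_⟩
          · rw [app_append]
            simp only [app, act]
            rw [hw]; ring
          · rw [sc_append, hs]
            simp only [sc, mul]; ring
        · by_cases h2 : 3 * r < 2 * (3 * P)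
          · -- M step
            have hdiv : 2 * y' / P = 6 * y + 3 := by
              rw [Nat.div_eq_iff hPpos]
              constructor
              · nlinarith
              · have h4 : 2 * y' = 6 * (P * y) + 2 * r := by
                  rw [← hdecomp]; ring
                have h5 : (6 * y + 3) * P = 6 * (P * y) + 3 * P := by ring
                omega
            obtain ⟨w, n, hw, hs⟩ := ihb (2 * y') (by omega)
            rw [hdiv] at hw
            refine ⟨w ++ [Lt.M], n + 1, ?_, ?_⟩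
            · rw [app_append]
              simp only [app, act]
              rw [hw]; ring
            · rw [sc_append, hs]
              simp only [sc, mul]; ring
          · -- R step
            have hdiv : y' / P = 3 * y + 2 := by
              rw [Nat.div_eq_iff hPpos]
              have h4 : y' = 3 * (P * y) + r := by
                rw [← hdecomp]; ring
              have h5 : (3 * y + 2) * P = 3 * (P * y) + 2 * P := by ring
              constructor
              · omega
              · omega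
            obtain ⟨w, n, hw, hs⟩ := ihb y' h3
            rw [hdiv] at hw
            refine ⟨w ++ [Lt.R], n, ?_, ?_⟩
            · rw [app_append]
              simp only [app, act]
              exact hw
            · rw [sc_append, hs]
              simp only [sc, mul]; ring
    intro y' h3
    exact key _ y' le_rfl h3

/-- Phase two, mirrored: descending to a right aligned position. -/
theorem phaseTwo' (A : ℕ) : ∀ κ : ℕ,
    ∃ (v : List Lt) (n : ℕ), app v (2 * κ / 2 ^ A) + 1 = 3 ^ n * (2 * κ + 1) ∧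
      sc v = 3 ^ n * 2 ^ A := by
  induction A with
  | zero =>
    intro κ
    exact ⟨[], 0, by simp [app], by simp [sc]⟩
  | succ A ihA =>
    have key : ∀ m : ℕ, ∀ κ : ℕ, 2 * κ % 2 ^ (A + 1) ≤ m →
        ∃ (v : List Lt) (n : ℕ), app v (2 * κ / 2 ^ (A + 1)) + 1 = 3 ^ n * (2 * κ + 1) ∧
          sc v = 3 ^ n * 2 ^ (A + 1) := by
      intro m
      induction m using Nat.strong_induction_on with
      | _ m ihm =>
        intro κ hm
        set P : ℕ := 2 ^ A with hP
        have hPpos : 0 < P := by positivity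
        have hP1 : 2 ^ (A + 1) = 2 * P := by rw [hP]; ring
        rw [hP1] at hm ⊢
        set y := 2 * κ / (2 * P) with hy
        set r := 2 * κ % (2 * P) with hr
        have hdecomp : 2 * P * y + r = 2 * κ := Nat.div_add_mod (2 * κ) (2 * P)
        have hrlt : r < 2 * P := Nat.mod_lt _ (by positivity)
        have hreven : r % 2 = 0 := by
          have : 2 * P * y = 2 * (P * y) := by ring
          omega
        by_cases h1 : 4 * P ≤ 3 * r + 2
        · -- R step
          have e1 : 2 * (3 * κ + 1) = 3 * (2 * P * y) + (3 * r + 2) := by omega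
          have hdiv : 2 * (3 * κ + 1) / (2 * P) = 3 * y + 2 := by
            rw [Nat.div_eq_iff (by positivity)]
            have h5 : (3 * y + 2) * (2 * P) = 3 * (2 * P * y) + 4 * P := by ring
            constructor
            · omega
            · omega
          have hmod : 2 * (3 * κ + 1) % (2 * P) = 3 * r + 2 - 4 * P := by
            have h5 := Nat.div_add_mod (2 * (3 * κ + 1)) (2 * P)
            rw [hdiv] at h5
            have h6 : 2 * P * (3 * y + 2) = 3 * (2 * P * y) + 4 * P := by ring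
            omega
          obtain ⟨v, n, hv, hs⟩ := ihm (3 * r + 2 - 4 * P) (by omega) (3 * κ + 1)
            (by rw [hP1, hmod])
          rw [hP1, hdiv] at hv
          rw [hP1] at hs
          refine ⟨v ++ [Lt.R], n + 1, ?_, ?_⟩
          · rw [app_append]
            simp only [app, act]
            rw [hv]; ring
          · rw [sc_append, hs]
            simp only [sc, mul]; ring
        · by_cases h2 : r < P
          · -- L step
            have hdiv : 2 * κ / P = 2 * y := by
              rw [Nat.div_eq_iff hPpos]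
              have h5 : 2 * y * P = 2 * P * y := by ring
              constructor
              · omega
              · omega
            obtain ⟨v, n, hv, hs⟩ := ihA κ
            rw [hdiv] at hv
            refine ⟨v ++ [Lt.L], n, ?_, ?_⟩
            · rw [app_append]
              simp only [app, act]
              exact hv
            · rw [sc_append, hs]
              simp only [sc, mul]; ring
          · -- M step
            have hdiv : 2 * (3 * κ + 1) / P = 6 * y + 3 := by
              rw [Nat.div_eq_iff hPpos]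
              have e1 : 2 * (3 * κ + 1) = 3 * (2 * P * y) + (3 * r + 2) := by omega
              have h5 : (6 * y + 3) * P = 3 * (2 * P * y) + 3 * P := by ring
              constructor
              · omega
              · omega
            obtain ⟨v, n, hv, hs⟩ := ihA (3 * κ + 1)
            rw [hdiv] at hv
            refine ⟨v ++ [Lt.M], n + 1, ?_, ?_⟩
            · rw [app_append]
              simp only [app, act]
              rw [hv]; ring
            · rw [sc_append, hs]
              simp only [sc, mul]; ring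
    intro κ
    exact key _ κ le_rfl

theorem app_replicate_L (n y : ℕ) : app (List.replicate n Lt.L) y = 2 ^ n * y := by
  induction n with
  | zero => simp [app]
  | succ n ih => simp only [List.replicate_succ, app, act, ih]; ring

theorem sc_replicate_L (n : ℕ) : sc (List.replicate n Lt.L) = 2 ^ n := by
  induction n with
  | zero => simp [sc]
  | succ n ih => simp only [List.replicate_succ, sc, mul, ih]; ring

theorem app_replicate_R (n y : ℕ) : app (List.replicate n Lt.R) y + 1 = 3 ^ n * (y + 1) := by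
  induction n with
  | zero => simp [app]
  | succ n ih =>
    simp only [List.replicate_succ, app, act]
    rw [pow_succ]
    nlinarith

theorem sc_replicate_R (n : ℕ) : sc (List.replicate n Lt.R) = 3 ^ n := by
  induction n with
  | zero => simp [sc]
  | succ n ih => simp only [List.replicate_succ, sc, mul, ih]; ring

/-- Any two overlapping lattice intervals `3^d [k, k+1)` and `2^d [k', k'+1)` have a common
descendant. -/
theorem common_desc (d : ℕ) (hd : 1 ≤ d) (μ : ℕ) :
    ∃ w v : List Lt, app w (μ / 3 ^ d) = app v (μ / 2 ^ d) ∧ sc w * 2 ^ d = sc v * 3 ^ d := by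
  set k := μ / 3 ^ d with hk
  set k' := μ / 2 ^ d with hk'
  have h3 : 0 < 3 ^ d := by positivity
  have h2 : 0 < 2 ^ d := by positivity
  have h23 : 2 ^ d ≤ 3 ^ d := Nat.pow_le_pow_left (by norm_num) d
  have hk1 : 3 ^ d * k ≤ μ := Nat.mul_div_le μ (3 ^ d)
  have hk2 : μ < 3 ^ d * (k + 1) := by
    have := Nat.lt_mul_div_succ μ h3
    simpa using this
  have hk1' : 2 ^ d * k' ≤ μ := Nat.mul_div_le μ (2 ^ d)
  have hk2' : μ < 2 ^ d * (k' + 1) := by
    have := Nat.lt_mul_div_succ μ h2
    simpa using this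
  by_cases hc : 2 ^ d * (k' + 1) ≤ 3 ^ d * (k + 1)
  · -- case (i)
    set ρ := app (List.replicate d Lt.R) k' with hρ
    have hρ1 : ρ + 1 = 3 ^ d * (k' + 1) := app_replicate_R d k'
    have hmod : (2 ^ d * ρ) % 3 ≠ 0 := by
      intro h0
      have hdvd : 3 ∣ 2 ^ d * ρ := Nat.dvd_of_mod_eq_zero h0
      have hcop : Nat.Coprime 3 (2 ^ d) := Nat.Coprime.pow_right d (by norm_num)
      have h4 : 3 ∣ ρ := hcop.dvd_of_dvd_mul_left hdvd
      have h5 : 3 ∣ ρ + 1 := by
        rw [hρ1]
        exact Dvd.dvd.mul_right (dvd_pow_self 3 (by omega)) _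
      omega
    have hfloor : (2 ^ d * ρ) / 3 ^ (2 * d) = k := by
      rw [Nat.div_eq_iff (by positivity)]
      have e1 : 3 ^ (2 * d) = 3 ^ d * 3 ^ d := by rw [two_mul, pow_add]
      rw [e1]
      have e2 : 2 ^ d * (ρ + 1) = 3 ^ d * (2 ^ d * (k' + 1)) := by rw [hρ1]; ring
      have e3 : 2 ^ d * ρ + 2 ^ d = 3 ^ d * (2 ^ d * (k' + 1)) := by rw [← e2]; ring
      have e4 : 3 ^ d * (3 ^ d * k + 1) ≤ 3 ^ d * (2 ^ d * (k' + 1)) :=
        Nat.mul_le_mul_left _ (by omega)
      have e5 : 3 ^ d * (2 ^ d * (k' + 1)) ≤ 3 ^ d * (3 ^ d * (k + 1)) :=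
        Nat.mul_le_mul_left _ hc
      have e6 : 3 ^ d * (3 ^ d * k + 1) = k * (3 ^ d * 3 ^ d) + 3 ^ d := by ring
      have e7 : 3 ^ d * (3 ^ d * (k + 1)) = k * (3 ^ d * 3 ^ d) + 3 ^ d * 3 ^ d := by ring
      constructor
      · omega
      · omega
    obtain ⟨w, n, hw, hs⟩ := phaseTwo (2 * d) (2 ^ d * ρ) hmod
    rw [hfloor] at hw
    refine ⟨w, List.replicate (n + d) Lt.L ++ List.replicate d Lt.R, ?_, ?_⟩
    · rw [hw, app_append, app_replicate_L, ← hρ]; ring
    · rw [hs, sc_append, sc_replicate_L, sc_replicate_R]; ring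
  · -- case (ii)
    push Not at hc
    set κ := app (List.replicate d Lt.R) k with hκ
    have hκ1 : κ + 1 = 3 ^ d * (k + 1) := app_replicate_R d k
    have hfloor : 2 * κ / 2 ^ (d + 1) = k' := by
      rw [Nat.div_eq_iff (by positivity)]
      have e1 : 2 ^ (d + 1) = 2 * 2 ^ d := by ring
      rw [e1]
      have e2 : k' * (2 * 2 ^ d) = 2 * (2 ^ d * k') := by ring
      have e3 : 2 ^ d * (k' + 1) = 2 ^ d * k' + 2 ^ d := by ring
      constructor
      · omega
      · omega
    obtain ⟨v, n, hv, hs⟩ := phaseTwo' (d + 1) κ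
    rw [hfloor] at hv
    refine ⟨List.replicate n Lt.R ++ ([Lt.L] ++ List.replicate d Lt.R), v, ?_, ?_⟩
    · rw [app_append, app_append, ← hκ]
      have h5 := app_replicate_R n (app [Lt.L] κ)
      simp only [app, act] at h5 ⊢
      omega
    · rw [hs, sc_append, sc_append, sc_replicate_R, sc_replicate_R]
      simp only [sc, mul]; ring


/-! ## The set generated from 1 -/

/-- The smallest set of naturals containing 1 and closed under the three maps. -/
def K : Set ℕ :=
  {x : ℕ | ∀ T : Set ℕ, 1 ∈ T →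
      (∀ y ∈ T, 2 * y ∈ T ∧ 3 * y + 2 ∈ T ∧ 6 * y + 3 ∈ T) → x ∈ T}

theorem one_mem_K : (1 : ℕ) ∈ K := fun _ h1 _ => h1

theorem act_mem_K (a : Lt) {y : ℕ} (hy : y ∈ K) : act a y ∈ K := by
  intro T h1 hT
  have := hT y (hy T h1 hT)
  cases a
  · exact this.1
  · exact this.2.2
  · exact this.2.1

theorem app_mem_K (w : List Lt) {y : ℕ} (hy : y ∈ K) : app w y ∈ K := by
  induction w with
  | nil => exact hy
  | cons a w ih => exact act_mem_K a ih

theorem K_cases {x : ℕ} (hx : x ∈ K) :
    x = 1 ∨ (∃ y ∈ K, x = 2 * y) ∨ (∃ y ∈ K, x = 3 * y + 2) ∨ (∃ y ∈ K, x = 6 * y + 3) := by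
  have h := hx {x | x ∈ K ∧ (x = 1 ∨ (∃ y ∈ K, x = 2 * y) ∨ (∃ y ∈ K, x = 3 * y + 2) ∨
    (∃ y ∈ K, x = 6 * y + 3))} ⟨one_mem_K, Or.inl rfl⟩ (by
      intro y hy
      refine ⟨⟨act_mem_K Lt.L hy.1, Or.inr (Or.inl ⟨y, hy.1, rfl⟩)⟩,
        ⟨act_mem_K Lt.R hy.1, Or.inr (Or.inr (Or.inl ⟨y, hy.1, rfl⟩))⟩,
        ⟨act_mem_K Lt.M hy.1, Or.inr (Or.inr (Or.inr ⟨y, hy.1, rfl⟩))⟩⟩)
  exact h.2

/-- The overlap of `2K` and `3K+2`. -/
def O : Set ℕ := {x : ℕ | (∃ y ∈ K, x = 2 * y) ∧ (∃ y ∈ K, x = 3 * y + 2)}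

theorem mem_O_of_ne {a b : Lt} (hab : a ≠ b) {x y z : ℕ} (hx : x ∈ K) (hy : y ∈ K)
    (h1 : z = act a x) (h2 : z = act b y) : z ∈ O := by
  cases a <;> cases b <;> simp only [act] at h1 h2
  · exact absurd rfl hab
  · omega
  · exact ⟨⟨x, hx, h1⟩, ⟨y, hy, h2⟩⟩
  · omega
  · exact absurd rfl hab
  · omega
  · exact ⟨⟨y, hy, h2⟩, ⟨x, hx, h1⟩⟩
  · omega
  · exact absurd rfl hab

theorem app_inj (u : List Lt) {x y : ℕ} (h : app u x = app u y) : x = y := by
  induction u with
  | nil => exact h
  | cons a u ih => exact ih (act_inj a h)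

theorem split_words (d : ℕ) (hd : 1 ≤ d) : ∀ w v : List Lt, sc w * 2 ^ d = sc v * 3 ^ d →
    ∃ (u : List Lt) (a : Lt) (w1 : List Lt) (b : Lt) (v1 : List Lt),
      a ≠ b ∧ w = u ++ a :: w1 ∧ v = u ++ b :: v1 := by
  intro w
  induction w with
  | nil =>
    intro v h
    exfalso
    simp only [sc, one_mul] at h
    have h3 : 3 ∣ 2 ^ d := by
      rw [h]
      exact Dvd.dvd.mul_left (dvd_pow_self 3 (by omega)) _
    have := Nat.Prime.dvd_of_dvd_pow Nat.prime_three h3
    omega
  | cons a w ih =>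
    intro v h
    cases v with
    | nil =>
      exfalso
      simp only [sc, one_mul] at h
      have h2 : 2 ∣ 3 ^ d := by
        rw [← h]
        exact Dvd.dvd.mul_left (dvd_pow_self 2 (by omega)) _
      have := Nat.Prime.dvd_of_dvd_pow Nat.prime_two h2
      omega
    | cons b v =>
      by_cases hab : a = b
      · subst hab
        have h' : sc w * 2 ^ d = sc v * 3 ^ d := by
          simp only [sc] at h
          have := mul_pos' a
          apply Nat.eq_of_mul_eq_mul_left this
          rw [← mul_assoc, h, mul_assoc]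
        obtain ⟨u, a', w1, b', v1, hne, hw, hv⟩ := ih v h'
        exact ⟨a :: u, a', w1, b', v1, hne, by rw [hw]; rfl, by rw [hv]; rfl⟩
      · exact ⟨[], a, w, b, v, hab, rfl, rfl⟩

/-- For each residue class modulo `6^d`, a linear map sending good parameters to overlaps. -/
theorem lemmaA (d : ℕ) (hd : 1 ≤ d) (μ₀ : ℕ) :
    ∃ α β : ℕ, 0 < α ∧ ∀ t : ℕ, (μ₀ + 6 ^ d * t) / 3 ^ d ∈ K → (μ₀ + 6 ^ d * t) / 2 ^ d ∈ K →
      α * t + β ∈ O := by
  obtain ⟨w, v, hwv, hs⟩ := common_desc d hd μ₀
  obtain ⟨u, a, w1, b, v1, hne, hw, hv⟩ := split_words d hd w v hs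
  have h3 : 0 < 3 ^ d := by positivity
  have h2 : 0 < 2 ^ d := by positivity
  refine ⟨sc (a :: w1) * 2 ^ d, app (a :: w1) (μ₀ / 3 ^ d),
    Nat.mul_pos (sc_pos _) h2, ?_⟩
  intro t hk hk'
  have e3 : (μ₀ + 6 ^ d * t) / 3 ^ d = μ₀ / 3 ^ d + 2 ^ d * t := by
    have : 6 ^ d * t = 3 ^ d * (2 ^ d * t) := by
      rw [← mul_assoc, ← mul_pow]
      norm_num
    rw [this, Nat.add_mul_div_left _ _ h3]
  have e2 : (μ₀ + 6 ^ d * t) / 2 ^ d = μ₀ / 2 ^ d + 3 ^ d * t := by
    have : 6 ^ d * t = 2 ^ d * (3 ^ d * t) := by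
      rw [← mul_assoc, ← mul_pow]
      norm_num
    rw [this, Nat.add_mul_div_left _ _ h2]
  rw [e3] at hk
  rw [e2] at hk'
  have heq : app w (μ₀ / 3 ^ d + 2 ^ d * t) = app v (μ₀ / 2 ^ d + 3 ^ d * t) := by
    rw [app_add, app_add, hwv, ← mul_assoc, ← mul_assoc, hs]
  rw [hw, hv, app_append, app_append] at heq
  have heq2 := app_inj u heq
  have hval : sc (a :: w1) * 2 ^ d * t + app (a :: w1) (μ₀ / 3 ^ d)
      = app (a :: w1) (μ₀ / 3 ^ d + 2 ^ d * t) := by
    rw [app_add]; ring
  rw [hval]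
  exact mem_O_of_ne hne (app_mem_K w1 hk) (app_mem_K v1 hk') rfl (by rw [heq2]; rfl)

/-! ## Counting -/

open Classical in
/-- Number of elements of `A` below `n`. -/
noncomputable def cnt (A : Set ℕ) (n : ℕ) : ℕ := ((Finset.range n).filter (· ∈ A)).card

theorem cnt_mono (A : Set ℕ) {m n : ℕ} (h : m ≤ n) : cnt A m ≤ cnt A n := by
  classical
  unfold cnt
  apply Finset.card_le_card
  intro x hx
  simp only [Finset.mem_filter, Finset.mem_range] at hx ⊢
  exact ⟨by omega, hx.2⟩

theorem cnt_le (A : Set ℕ) (n : ℕ) : cnt A n ≤ n := by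
  classical
  unfold cnt
  calc _ ≤ (Finset.range n).card := Finset.card_filter_le _ _
    _ = n := Finset.card_range n

/-- The set of `μ` whose two scaled quotients lie in `K`. -/
def Z (d : ℕ) : Set ℕ := {μ : ℕ | μ / 3 ^ d ∈ K ∧ μ / 2 ^ d ∈ K}

theorem lemmaB (d : ℕ) (hd : 1 ≤ d) :
    ∃ C : ℕ, ∀ n : ℕ, cnt (Z d) n ≤ C * cnt O (C * n + 1) := by
  classical
  choose α β hα hO using lemmaA d hd
  set q := 6 ^ d with hq
  have hqpos : 0 < q := by positivity
  set C0 := ∑ i ∈ Finset.range q, (α i + β i) with hC0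
  have hC0le : ∀ i < q, α i + β i ≤ C0 := by
    intro i hi
    exact Finset.single_le_sum (f := fun i => α i + β i) (fun _ _ => Nat.zero_le _)
      (Finset.mem_range.mpr hi)
  refine ⟨q + C0, fun n => ?_⟩
  have key : cnt (Z d) n ≤ q * cnt O (C0 * n + 1) := by
    unfold cnt
    have hprod : q * ((Finset.range (C0 * n + 1)).filter (· ∈ O)).card =
        ((Finset.range q) ×ˢ ((Finset.range (C0 * n + 1)).filter (· ∈ O))).card := by
      rw [Finset.card_product, Finset.card_range]
    rw [hprod]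
    apply Finset.card_le_card_of_injOn
      (fun μ => (μ % q, α (μ % q) * (μ / q) + β (μ % q)))
    · intro μ hμ
      simp only [Finset.coe_filter, Finset.mem_range, Set.mem_ofPred_eq] at hμ
      obtain ⟨hμn, hμZ⟩ := hμ
      have hlt : μ % q < q := Nat.mod_lt _ hqpos
      simp only [Finset.coe_product, Set.mem_prod, Finset.coe_range, Set.mem_Iio,
        Finset.coe_filter, Finset.mem_range, Set.mem_ofPred_eq]
      refine ⟨hlt, ?_, ?_⟩
      · have h1 := hC0le _ hlt
        have h2 : μ / q ≤ μ := Nat.div_le_self _ _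
        have h3 : α (μ % q) * (μ / q) ≤ α (μ % q) * (n - 1) :=
          Nat.mul_le_mul_left _ (by omega)
        have h4 : α (μ % q) * (n - 1) + β (μ % q) * 1 ≤ C0 * (n - 1) + C0 * 1 := by
          have h5 : α (μ % q) * (n - 1) ≤ α (μ % q) * (n-1) := le_rfl
          have h6 : (α (μ % q) + β (μ % q)) * (n - 1) ≤ C0 * (n - 1) :=
            Nat.mul_le_mul_right _ h1
          have h7 : α (μ % q) * (n - 1) ≤ (α (μ % q) + β (μ % q)) * (n - 1) :=
            Nat.mul_le_mul_right _ (by omega)
          omega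
        have h8 : C0 * (n - 1) + C0 * 1 = C0 * n := by
          rw [← mul_add]; congr 1; omega
        omega
      · apply hO (μ % q) (μ / q)
        · rw [Nat.mod_add_div]; exact hμZ.1
        · rw [Nat.mod_add_div]; exact hμZ.2
    · intro μ _ ν _ h
      simp only [Prod.mk.injEq] at h
      obtain ⟨h1, h2⟩ := h
      rw [h1] at h2
      have h3 : α (ν % q) * (μ / q) = α (ν % q) * (ν / q) := by omega
      have h4 := Nat.eq_of_mul_eq_mul_left (hα _) h3
      rw [← Nat.mod_add_div μ q, ← Nat.mod_add_div ν q, h1, h4]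
  calc cnt (Z d) n ≤ q * cnt O (C0 * n + 1) := key
    _ ≤ (q + C0) * cnt O ((q + C0) * n + 1) := by
      apply Nat.mul_le_mul (by omega)
      apply cnt_mono
      have : C0 * n ≤ (q + C0) * n := Nat.mul_le_mul_right _ (by omega)
      omega

theorem lemmaD (n : ℕ) :
    cnt K (n + 1) + cnt O (n + 1) ≤
      1 + cnt K (n / 2 + 1) + cnt K (n / 3 + 1) + cnt K (n / 6 + 1) := by
  classical
  set A := (Finset.range (n + 1)).filter (fun x => ∃ y ∈ K, x = 2 * y) with hA
  set B := (Finset.range (n + 1)).filter (fun x => ∃ y ∈ K, x = 3 * y + 2) with hB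
  set C := (Finset.range (n + 1)).filter (fun x => ∃ y ∈ K, x = 6 * y + 3) with hC
  have hAc : A.card ≤ cnt K (n / 2 + 1) := by
    unfold cnt
    calc A.card ≤ (((Finset.range (n / 2 + 1)).filter (· ∈ K)).image (fun y => 2 * y)).card := by
          apply Finset.card_le_card
          intro x hx
          simp only [hA, Finset.mem_filter, Finset.mem_range] at hx
          obtain ⟨hx1, y, hy, rfl⟩ := hx
          simp only [Finset.mem_image, Finset.mem_filter, Finset.mem_range]
          exact ⟨y, ⟨by omega, hy⟩, rfl⟩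
      _ ≤ _ := Finset.card_image_le
  have hBc : B.card ≤ cnt K (n / 3 + 1) := by
    unfold cnt
    calc B.card ≤ (((Finset.range (n / 3 + 1)).filter (· ∈ K)).image
            (fun y => 3 * y + 2)).card := by
          apply Finset.card_le_card
          intro x hx
          simp only [hB, Finset.mem_filter, Finset.mem_range] at hx
          obtain ⟨hx1, y, hy, rfl⟩ := hx
          simp only [Finset.mem_image, Finset.mem_filter, Finset.mem_range]
          exact ⟨y, ⟨by omega, hy⟩, rfl⟩
      _ ≤ _ := Finset.card_image_le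
  have hCc : C.card ≤ cnt K (n / 6 + 1) := by
    unfold cnt
    calc C.card ≤ (((Finset.range (n / 6 + 1)).filter (· ∈ K)).image
            (fun y => 6 * y + 3)).card := by
          apply Finset.card_le_card
          intro x hx
          simp only [hC, Finset.mem_filter, Finset.mem_range] at hx
          obtain ⟨hx1, y, hy, rfl⟩ := hx
          simp only [Finset.mem_image, Finset.mem_filter, Finset.mem_range]
          exact ⟨y, ⟨by omega, hy⟩, rfl⟩
      _ ≤ _ := Finset.card_image_le
  have hO : cnt O (n + 1) = (A ∩ B).card := by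
    unfold cnt
    congr 1
    ext x
    rw [hA, hB, Finset.mem_inter, Finset.mem_filter, Finset.mem_filter, Finset.mem_filter]
    simp only [O, Set.mem_ofPred_eq]
    tauto
  have hK : cnt K (n + 1) ≤ (({1} : Finset ℕ) ∪ ((A ∪ B) ∪ C)).card := by
    unfold cnt
    apply Finset.card_le_card
    intro x hx
    simp only [Finset.mem_filter] at hx
    simp only [hA, hB, hC, Finset.mem_union, Finset.mem_singleton, Finset.mem_filter]
    rcases K_cases hx.2 with h | h | h | h
    · exact Or.inl h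
    · exact Or.inr (Or.inl (Or.inl ⟨hx.1, h⟩))
    · exact Or.inr (Or.inl (Or.inr ⟨hx.1, h⟩))
    · exact Or.inr (Or.inr ⟨hx.1, h⟩)
  have h1 : (({1} : Finset ℕ) ∪ ((A ∪ B) ∪ C)).card ≤ 1 + ((A ∪ B) ∪ C).card := by
    calc _ ≤ ({1} : Finset ℕ).card + ((A ∪ B) ∪ C).card := Finset.card_union_le _ _
      _ = _ := by simp
  have h2 : ((A ∪ B) ∪ C).card ≤ (A ∪ B).card + C.card := Finset.card_union_le _ _
  have h3 : (A ∪ B).card + (A ∩ B).card = A.card + B.card := Finset.card_union_add_card_inter A B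
  omega

/-- Pairs inequality: the number of indices is at most one plus the number of pairs. -/
theorem pairs_ineq (p : ℕ → Prop) [DecidablePred p] (L : ℕ) :
    ∑ j ∈ Finset.range L, (if p j then 1 else 0) ≤
      1 + ∑ j ∈ Finset.range L, ∑ i ∈ Finset.range j, (if p i ∧ p j then 1 else 0) := by
  induction L with
  | zero => simp
  | succ L ih =>
    rw [Finset.sum_range_succ, Finset.sum_range_succ]
    by_cases hL : p L
    · simp only [hL, and_true, if_true]
      by_cases h0 : ∑ i ∈ Finset.range L, (if p i then 1 else 0) = 0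
      · omega
      · omega
    · simp only [hL, and_false, if_false]
      omega


theorem pow6 (L : ℕ) : 6 ^ L = 2 ^ L * 3 ^ L := by
  rw [← mul_pow]
  norm_num

theorem cnt_eq_sum (A : Set ℕ) [DecidablePred (· ∈ A)] (n : ℕ) :
    cnt A n = ∑ m ∈ Finset.range n, (if m ∈ A then 1 else 0) := by
  classical
  unfold cnt
  rw [Finset.card_filter]
  apply Finset.sum_congr rfl
  intro m _
  congr

/-- The scale of site `i`. -/
def s (L i : ℕ) : ℕ := 2 ^ (L - i) * 3 ^ i

theorem s_pos (L i : ℕ) : 0 < s L i := by unfold s; positivity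

theorem cnt_quot_ge (g n : ℕ) (hg : 0 < g) (A : Set ℕ) :
    g * cnt A n ≤ cnt {m | m / g ∈ A} (g * n) := by
  classical
  unfold cnt
  have hprod : g * ((Finset.range n).filter (· ∈ A)).card =
      ((Finset.range g) ×ˢ ((Finset.range n).filter (· ∈ A))).card := by
    rw [Finset.card_product, Finset.card_range]
  rw [hprod]
  apply Finset.card_le_card_of_injOn (fun x => g * x.2 + x.1)
  · intro x hx
    simp only [Finset.coe_product, Set.mem_prod, Finset.coe_range, Set.mem_Iio,
        Finset.coe_filter, Finset.mem_range, Set.mem_ofPred_eq] at hx ⊢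
    obtain ⟨hx1, hx2, hx3⟩ := hx
    have h1 : (g * x.2 + x.1) / g = x.2 := by
      rw [Nat.mul_add_div hg, Nat.div_eq_of_lt hx1, add_zero]
    refine ⟨?_, by rw [h1]; exact hx3⟩
    have : g * (x.2 + 1) ≤ g * n := Nat.mul_le_mul_left _ hx2
    rw [mul_add, mul_one] at this
    omega
  · intro x hx y hy h
    simp only [Finset.coe_product, Set.mem_prod, Finset.coe_range, Set.mem_Iio,
        Finset.coe_filter, Finset.mem_range, Set.mem_ofPred_eq] at hx hy h
    have h1 : (g * x.2 + x.1) / g = x.2 := by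
      rw [Nat.mul_add_div hg, Nat.div_eq_of_lt hx.1, add_zero]
    have h2 : (g * y.2 + y.1) / g = y.2 := by
      rw [Nat.mul_add_div hg, Nat.div_eq_of_lt hy.1, add_zero]
    have h3 : x.2 = y.2 := by rw [← h1, ← h2, h]
    have h4 : x.1 = y.1 := by rw [h3] at h; omega
    exact Prod.ext h4 h3

theorem cnt_quot_le (g n : ℕ) (hg : 0 < g) (A : Set ℕ) :
    cnt {m | m / g ∈ A} n ≤ g * cnt A n := by
  classical
  unfold cnt
  have hprod : g * ((Finset.range n).filter (· ∈ A)).card =
      ((Finset.range g) ×ˢ ((Finset.range n).filter (· ∈ A))).card := by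
    rw [Finset.card_product, Finset.card_range]
  rw [hprod]
  apply Finset.card_le_card_of_injOn (fun m => (m % g, m / g))
  · intro m hm
    simp only [Finset.coe_product, Set.mem_prod, Finset.coe_range, Set.mem_Iio,
        Finset.coe_filter, Finset.mem_range, Set.mem_ofPred_eq] at hm ⊢
    exact ⟨Nat.mod_lt _ hg, lt_of_le_of_lt (Nat.div_le_self _ _) hm.1, hm.2⟩
  · intro x _ y _ h
    simp only [Prod.mk.injEq] at h
    rw [← Nat.mod_add_div x g, ← Nat.mod_add_div y g, h.1, h.2]

/-- Overlaps have positive lower density if `K` has. -/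
theorem lemmaC (c : ℝ) (hc : 0 < c) (N : ℕ) (hN : ∀ n ≥ N, c * n ≤ cnt K (n + 1)) :
    ∃ c4 : ℝ, 0 < c4 ∧ ∃ x0 : ℕ, ∀ x ≥ x0, c4 * x ≤ cnt O x := by
  classical
  obtain ⟨L, hL⟩ := exists_nat_ge (3 / c)
  have hcL : 3 ≤ c * L := by
    rw [div_le_iff₀ hc] at hL
    linarith
  -- constants of lemmaB
  have hBex : ∀ d : ℕ, ∃ C : ℕ, 1 ≤ d → ∀ n : ℕ, cnt (Z d) n ≤ C * cnt O (C * n + 1) := by
    intro d
    by_cases hd : 1 ≤ d
    · obtain ⟨C, hC⟩ := lemmaB d hd
      exact ⟨C, fun _ => hC⟩
    · exact ⟨0, fun h => absurd h hd⟩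
  choose CB hCB using hBex
  set C : ℕ := 6 ^ L * (1 + ∑ d ∈ Finset.range (L + 1), CB d) with hCdef
  have h6pos : 0 < 6 ^ L := by positivity
  have hCpos : 0 < C := by rw [hCdef]; positivity
  have hCBle : ∀ d ≤ L, CB d ≤ C := by
    intro d hd
    have h1 : CB d ≤ ∑ d ∈ Finset.range (L + 1), CB d :=
      Finset.single_le_sum (f := fun i => CB i) (fun _ _ => Nat.zero_le _)
        (Finset.mem_range.mpr (by omega))
    calc CB d ≤ 1 * (1 + ∑ d ∈ Finset.range (L + 1), CB d) := by omega
      _ ≤ C := by rw [hCdef]; exact Nat.mul_le_mul_right _ h6pos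
  have hgCB : ∀ d ≤ L, ∀ g ≤ 6 ^ L, g * CB d ≤ C := by
    intro d hd g hg
    have h1 : CB d ≤ ∑ d ∈ Finset.range (L + 1), CB d :=
      Finset.single_le_sum (f := fun i => CB i) (fun _ _ => Nat.zero_le _)
        (Finset.mem_range.mpr (by omega))
    calc g * CB d ≤ 6 ^ L * (1 + ∑ d ∈ Finset.range (L + 1), CB d) :=
          Nat.mul_le_mul hg (by omega)
      _ = C := hCdef.symm
  -- pair bound
  have hpair : ∀ n : ℕ, ∀ j < L, ∀ i < j,
      cnt {m | m / s L i ∈ K ∧ m / s L j ∈ K} n ≤ C * cnt O (C * n + 1) := by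
    intro n j hj i hij
    set d := j - i with hd
    set g := 2 ^ (L - j) * 3 ^ i with hg
    have hgpos : 0 < g := by rw [hg]; positivity
    have hgle : g ≤ 6 ^ L := by
      calc g = 2 ^ (L - j) * 3 ^ i := hg
        _ ≤ 2 ^ L * 3 ^ L := Nat.mul_le_mul (Nat.pow_le_pow_right (by norm_num) (by omega))
            (Nat.pow_le_pow_right (by norm_num) (by omega))
        _ = 6 ^ L := (pow6 L).symm
    have hsi : s L i = g * 2 ^ d := by
      unfold s
      have : L - i = (L - j) + d := by omega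
      rw [this, pow_add, hg]; ring
    have hsj : s L j = g * 3 ^ d := by
      unfold s
      have : j = i + d := by omega
      rw [hg]
      nth_rewrite 2 [this]
      rw [pow_add]; ring
    have hset : {m | m / s L i ∈ K ∧ m / s L j ∈ K} = {m | m / g ∈ Z d} := by
      ext m
      simp only [Z, Set.mem_ofPred_eq]
      have e1 : m / (g * 2 ^ d) = m / g / 2 ^ d := (Nat.div_div_eq_div_mul m g (2 ^ d)).symm
      have e2 : m / (g * 3 ^ d) = m / g / 3 ^ d := (Nat.div_div_eq_div_mul m g (3 ^ d)).symm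
      rw [hsi, hsj, e1, e2]
      exact and_comm
    rw [hset]
    calc cnt {m | m / g ∈ Z d} n ≤ g * cnt (Z d) n := cnt_quot_le g n hgpos _
      _ ≤ g * (CB d * cnt O (CB d * n + 1)) := Nat.mul_le_mul_left _ (hCB d (by omega) n)
      _ = (g * CB d) * cnt O (CB d * n + 1) := by ring
      _ ≤ C * cnt O (C * n + 1) := by
        apply Nat.mul_le_mul (hgCB d (by omega) g hgle)
        apply cnt_mono
        have := Nat.mul_le_mul_right n (hCBle d (by omega))
        omega
  -- total bound
  have htotal : ∀ n : ℕ, ∑ j ∈ Finset.range L, cnt {m | m / s L j ∈ K} n ≤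
      n + L * L * (C * cnt O (C * n + 1)) := by
    intro n
    have h1 : ∑ j ∈ Finset.range L, cnt {m | m / s L j ∈ K} n =
        ∑ m ∈ Finset.range n, ∑ j ∈ Finset.range L, (if m / s L j ∈ K then 1 else 0) := by
      rw [Finset.sum_comm]
      apply Finset.sum_congr rfl
      intro j _
      rw [cnt_eq_sum]
      rfl
    have h2 : ∑ m ∈ Finset.range n, ∑ j ∈ Finset.range L, (if m / s L j ∈ K then 1 else 0) ≤
        ∑ m ∈ Finset.range n, (1 + ∑ j ∈ Finset.range L, ∑ i ∈ Finset.range j,
          (if m / s L i ∈ K ∧ m / s L j ∈ K then 1 else 0)) := by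
      apply Finset.sum_le_sum
      intro m _
      exact pairs_ineq (fun i => m / s L i ∈ K) L
    have h3 : ∑ m ∈ Finset.range n, (1 + ∑ j ∈ Finset.range L, ∑ i ∈ Finset.range j,
          (if m / s L i ∈ K ∧ m / s L j ∈ K then 1 else 0)) =
        n + ∑ j ∈ Finset.range L, ∑ i ∈ Finset.range j,
          cnt {m | m / s L i ∈ K ∧ m / s L j ∈ K} n := by
      rw [Finset.sum_add_distrib]
      congr 1
      · simp
      · rw [Finset.sum_comm]
        apply Finset.sum_congr rfl
        intro j _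
        rw [Finset.sum_comm]
        apply Finset.sum_congr rfl
        intro i _
        rw [cnt_eq_sum]
        rfl
    have h4 : ∑ j ∈ Finset.range L, ∑ i ∈ Finset.range j,
          cnt {m | m / s L i ∈ K ∧ m / s L j ∈ K} n ≤
        ∑ j ∈ Finset.range L, ∑ i ∈ Finset.range L, (C * cnt O (C * n + 1)) := by
      apply Finset.sum_le_sum
      intro j hj
      have hj' := Finset.mem_range.mp hj
      calc ∑ i ∈ Finset.range j, cnt {m | m / s L i ∈ K ∧ m / s L j ∈ K} n
          ≤ ∑ i ∈ Finset.range j, (C * cnt O (C * n + 1)) := by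
            apply Finset.sum_le_sum
            intro i hi
            exact hpair n j hj' i (Finset.mem_range.mp hi)
        _ ≤ ∑ i ∈ Finset.range L, (C * cnt O (C * n + 1)) := by
            apply Finset.sum_le_sum_of_subset
            intro i hi
            simp only [Finset.mem_range] at hi ⊢
            omega
    simp only [Finset.sum_const, Finset.card_range, smul_eq_mul] at h4
    rw [h1]
    have h5 : L * L * (C * cnt O (C * n + 1)) = L * (L * (C * cnt O (C * n + 1))) := by ring
    omega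
  -- lower bound for each site
  have hlow : ∀ T : ℕ, N + 1 ≤ T → ∀ i < L,
      c * ((6 ^ L * T : ℕ) : ℝ) - c * (6 ^ L : ℕ) ≤ cnt {m | m / s L i ∈ K} (6 ^ L * T) := by
    intro T hT i hi
    have hsT : 6 ^ L * T = s L i * (2 ^ i * 3 ^ (L - i) * T) := by
      unfold s
      have h1 : 6 ^ L = 2 ^ L * 3 ^ L := pow6 L
      have h2 : 2 ^ L = 2 ^ (L - i) * 2 ^ i := by rw [← pow_add]; congr 1; omega
      have h3 : 3 ^ L = 3 ^ i * 3 ^ (L - i) := by rw [← pow_add]; congr 1; omega
      rw [h1, h2, h3]; ring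
    set T' := 2 ^ i * 3 ^ (L - i) * T with hT'
    have hT'ge : T ≤ T' := by
      rw [hT']
      have : 0 < 2 ^ i * 3 ^ (L - i) := by positivity
      exact Nat.le_mul_of_pos_left T this
    have h1 := cnt_quot_ge (s L i) T' (s_pos L i) K
    rw [← hsT] at h1
    have h2 := hN (T' - 1) (by omega)
    have h3 : T' - 1 + 1 = T' := by omega
    rw [h3] at h2
    have h4 : ((T' - 1 : ℕ) : ℝ) = (T' : ℝ) - 1 := by
      rw [Nat.cast_sub (by omega)]; simp
    rw [h4] at h2
    have hsle : s L i ≤ 6 ^ L := by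
      unfold s
      calc 2 ^ (L - i) * 3 ^ i ≤ 2 ^ L * 3 ^ L :=
            Nat.mul_le_mul (Nat.pow_le_pow_right (by norm_num) (by omega))
              (Nat.pow_le_pow_right (by norm_num) (by omega))
        _ = 6 ^ L := (pow6 L).symm
    have h5 : (s L i : ℝ) * (c * ((T' : ℝ) - 1)) ≤ (s L i : ℝ) * (cnt K T' : ℝ) :=
      mul_le_mul_of_nonneg_left h2 (Nat.cast_nonneg _)
    have h6 : ((s L i * cnt K T' : ℕ) : ℝ) ≤ cnt {m | m / s L i ∈ K} (6 ^ L * T) := by
      exact_mod_cast h1
    have h7 : ((6 ^ L * T : ℕ) : ℝ) = (s L i : ℝ) * (T' : ℝ) := by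
      rw [hsT]; push_cast; ring
    have h8 : (s L i : ℝ) ≤ ((6 ^ L : ℕ) : ℝ) := by exact_mod_cast hsle
    rw [h7]
    push_cast at h6 h8 ⊢
    have h9 : c * (s L i : ℝ) ≤ c * (6 ^ L : ℝ) := mul_le_mul_of_nonneg_left h8 hc.le
    nlinarith
  -- combine
  have hmain : ∀ T : ℕ, N + 1 ≤ T → c * L ≤ T →
      ((6 ^ L * T : ℕ) : ℝ) ≤ (L * L * C : ℕ) * (cnt O (C * (6 ^ L * T) + 1) : ℝ) := by
    intro T hT hT2
    have h1 : ∑ j ∈ Finset.range L, (c * ((6 ^ L * T : ℕ) : ℝ) - c * (6 ^ L : ℕ)) ≤
        ∑ j ∈ Finset.range L, (cnt {m | m / s L j ∈ K} (6 ^ L * T) : ℝ) := by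
      apply Finset.sum_le_sum
      intro j hj
      exact hlow T hT j (Finset.mem_range.mp hj)
    have h2 := htotal (6 ^ L * T)
    have h3 : (∑ j ∈ Finset.range L, (cnt {m | m / s L j ∈ K} (6 ^ L * T) : ℝ)) ≤
        ((6 ^ L * T : ℕ) : ℝ) + (L * L * C : ℕ) * (cnt O (C * (6 ^ L * T) + 1) : ℝ) := by
      have : ((∑ j ∈ Finset.range L, cnt {m | m / s L j ∈ K} (6 ^ L * T) : ℕ) : ℝ) ≤
          ((6 ^ L * T + L * L * (C * cnt O (C * (6 ^ L * T) + 1)) : ℕ) : ℝ) := by
        exact_mod_cast h2
      push_cast at this ⊢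
      linarith
    rw [Finset.sum_const, Finset.card_range, nsmul_eq_mul] at h1
    have h4 : (0 : ℝ) < ((6 ^ L : ℕ) : ℝ) := by exact_mod_cast h6pos
    have h5 : ((6 ^ L * T : ℕ) : ℝ) = ((6 ^ L : ℕ) : ℝ) * T := by push_cast; ring
    rw [h5] at h1 h3 ⊢
    have h6 : (L : ℝ) * (c * (((6 ^ L : ℕ) : ℝ) * T) - c * ((6 ^ L : ℕ) : ℝ)) =
        (c * L) * (((6 ^ L : ℕ) : ℝ) * T) - (c * L) * ((6 ^ L : ℕ) : ℝ) := by ring
    rw [h6] at h1
    have hTnn : (0 : ℝ) ≤ T := Nat.cast_nonneg _
    have h7 : 3 * (((6 ^ L : ℕ) : ℝ) * T) ≤ (c * L) * (((6 ^ L : ℕ) : ℝ) * T) :=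
      mul_le_mul_of_nonneg_right hcL (by positivity)
    have h8 : (c * L) * ((6 ^ L : ℕ) : ℝ) ≤ T * ((6 ^ L : ℕ) : ℝ) :=
      mul_le_mul_of_nonneg_right hT2 h4.le
    nlinarith
  -- conclusion
  obtain ⟨T0, hT0⟩ := exists_nat_ge (c * L)
  set q : ℕ := C * 6 ^ L with hq
  have hqpos : 0 < q := by rw [hq]; positivity
  set D : ℕ := L * L * C * C + 1 with hD
  refine ⟨1 / (2 * D), by positivity, 2 * (q * (T0 + N + 3) + 2), fun x hx => ?_⟩
  set T := (x - 1) / q with hT
  have hTq : q * T ≤ x - 1 := Nat.mul_div_le _ _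
  have hTq2 : x - 1 < q * (T + 1) := by
    have := Nat.lt_mul_div_succ (x - 1) hqpos
    simpa using this
  have hxbig : q * (T0 + N + 3) + 1 ≤ x := by omega
  have hTge : T0 + N + 1 ≤ T := by
    rw [hT, Nat.le_div_iff_mul_le hqpos]
    have : (T0 + N + 1) * q ≤ q * (T0 + N + 3) := by nlinarith
    omega
  have h1 := hmain T (by omega) (le_trans hT0 (by exact_mod_cast (by omega : T0 ≤ T)))
  have h2 : cnt O (C * (6 ^ L * T) + 1) ≤ cnt O x := by
    apply cnt_mono
    have : C * (6 ^ L * T) = q * T := by rw [hq]; ring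
    omega
  have h2' : (cnt O (C * (6 ^ L * T) + 1) : ℝ) ≤ cnt O x := by exact_mod_cast h2
  have h3 : ((6 ^ L * T : ℕ) : ℝ) ≤ (L * L * C : ℕ) * (cnt O x : ℝ) :=
    le_trans h1 (mul_le_mul_of_nonneg_left h2' (Nat.cast_nonneg _))
  have h4 : ((C * (6 ^ L * T) : ℕ) : ℝ) ≤ (D : ℝ) * (cnt O x : ℝ) := by
    have h5 : ((C * (6 ^ L * T) : ℕ) : ℝ) = (C : ℝ) * ((6 ^ L * T : ℕ) : ℝ) := by push_cast; ring
    rw [h5]
    have h6 : (C : ℝ) * ((6 ^ L * T : ℕ) : ℝ) ≤ (C : ℝ) * ((L * L * C : ℕ) * (cnt O x : ℝ)) :=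
      mul_le_mul_of_nonneg_left h3 (Nat.cast_nonneg _)
    have h7 : (C : ℝ) * ((L * L * C : ℕ) * (cnt O x : ℝ)) ≤ (D : ℝ) * (cnt O x : ℝ) := by
      rw [hD]; push_cast
      have : (0 : ℝ) ≤ cnt O x := Nat.cast_nonneg _
      nlinarith
    linarith
  have h5 : (x : ℝ) ≤ 2 * ((C * (6 ^ L * T) : ℕ) : ℝ) := by
    have h6 : x ≤ 2 * (C * (6 ^ L * T)) := by
      have h7 : C * (6 ^ L * T) = q * T := by rw [hq]; ring
      rw [h7]
      have h8 : q * (T + 1) = q * T + q := by ring
      have h9 : q * (T0 + N + 1) ≤ q * T := Nat.mul_le_mul_left _ hTge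
      have h10 : q * 3 ≤ q * (T0 + N + 3) := Nat.mul_le_mul_left _ (by omega)
      omega
    exact_mod_cast h6
  have hDpos : (0 : ℝ) < D := by positivity
  rw [div_mul_eq_mul_div, one_mul, div_le_iff₀ (by positivity)]
  nlinarith

theorem lemmaE (c4 : ℝ) (hc4 : 0 < c4) (x0 : ℕ) (h : ∀ x ≥ x0, c4 * x ≤ cnt O x) :
    ∀ k : ℕ, ∃ C : ℝ, ∀ n : ℕ, (cnt K (n + 1) : ℝ) ≤ (1 - k * c4) * n + C := by
  intro k
  induction k with
  | zero =>
    refine ⟨1, fun n => ?_⟩
    have := cnt_le K (n + 1)
    have h1 : (cnt K (n + 1) : ℝ) ≤ ((n + 1 : ℕ) : ℝ) := by exact_mod_cast this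
    push_cast at h1 ⊢
    linarith
  | succ k ih =>
    obtain ⟨C, hC⟩ := ih
    set α : ℝ := 1 - k * c4 with hα
    have hα' : (1 - ((k + 1 : ℕ) : ℝ) * c4) = α - c4 := by push_cast; rw [hα]; ring
    rw [hα']
    refine ⟨1 + 3 * |C| + 3 * |α| + (x0 + 1) + |α - c4| * x0, fun n => ?_⟩
    have hfl : ∀ b : ℕ, 0 < b → α * ((n / b : ℕ) : ℝ) ≤ α * ((n : ℝ) / b) + |α| := by
      intro b hb
      have hb' : (0 : ℝ) < b := by exact_mod_cast hb
      have h1 : ((n / b : ℕ) : ℝ) ≤ (n : ℝ) / b := Nat.cast_div_le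
      have h2 : (n : ℝ) / b ≤ ((n / b : ℕ) : ℝ) + 1 := by
        rw [div_le_iff₀ hb']
        have h3 : n < b * (n / b + 1) := by
          have := Nat.lt_mul_div_succ n hb
          simpa using this
        have h4 : (n : ℝ) < ((b * (n / b + 1) : ℕ) : ℝ) := by exact_mod_cast h3
        push_cast at h4
        nlinarith
      have h5 : |((n : ℝ) / b) - ((n / b : ℕ) : ℝ)| ≤ 1 := by
        rw [abs_le]; constructor <;> linarith
      have h6 : |α * (((n / b : ℕ) : ℝ) - (n : ℝ) / b)| ≤ |α| := by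
        rw [abs_mul, abs_sub_comm (((n / b : ℕ) : ℝ)) ((n : ℝ) / b)]
        calc |α| * |(n : ℝ) / b - ((n / b : ℕ) : ℝ)| ≤ |α| * 1 :=
              mul_le_mul_of_nonneg_left h5 (abs_nonneg _)
          _ = |α| := mul_one _
      have h7 := le_abs_self (α * (((n / b : ℕ) : ℝ) - (n : ℝ) / b))
      nlinarith
    have habsC := le_abs_self C
    have hCn := abs_nonneg C
    have hαn := abs_nonneg α
    have hx0n : (0 : ℝ) ≤ (x0 : ℝ) := Nat.cast_nonneg _
    have hacn := abs_nonneg (α - c4)
    have hprodn : 0 ≤ |α - c4| * (x0 : ℝ) := mul_nonneg hacn hx0n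
    by_cases hn : x0 ≤ n + 1
    · have h1 := lemmaD n
      have h1' : (cnt K (n + 1) : ℝ) + (cnt O (n + 1) : ℝ) ≤
          1 + cnt K (n / 2 + 1) + cnt K (n / 3 + 1) + cnt K (n / 6 + 1) := by
        exact_mod_cast h1
      have h2 := h (n + 1) hn
      push_cast at h2
      have h3 := hC (n / 2)
      have h4 := hC (n / 3)
      have h5 := hC (n / 6)
      have h6 := hfl 2 (by norm_num)
      have h7 := hfl 3 (by norm_num)
      have h8 := hfl 6 (by norm_num)
      push_cast at h6 h7 h8
      have h9 : α * ((n : ℝ) / 2) + α * ((n : ℝ) / 3) + α * ((n : ℝ) / 6) = α * n := by ring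
      nlinarith
    · have h1 := cnt_le K (n + 1)
      have h1' : (cnt K (n + 1) : ℝ) ≤ ((n + 1 : ℕ) : ℝ) := by exact_mod_cast h1
      push_cast at h1'
      have hn' : (n : ℝ) ≤ x0 := by
        have : n ≤ x0 := by omega
        exact_mod_cast this
      have hnn : (0 : ℝ) ≤ (n : ℝ) := Nat.cast_nonneg _
      have h2 : -(|α - c4| * x0) ≤ (α - c4) * n := by
        have h3 : -|α - c4| ≤ α - c4 := neg_abs_le _
        have h4 : |α - c4| * n ≤ |α - c4| * x0 := mul_le_mul_of_nonneg_left hn' hacn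
        nlinarith
      linarith

/-- `K` does not have positive lower density. -/
theorem no_pos_density : ¬ ∃ c : ℝ, 0 < c ∧ ∃ N : ℕ, ∀ n ≥ N, c * n ≤ cnt K (n + 1) := by
  rintro ⟨c, hc, N, hN⟩
  obtain ⟨c4, hc4, x0, hx⟩ := lemmaC c hc N hN
  obtain ⟨k, hk⟩ := exists_nat_ge (2 / c4)
  have hk' : 2 ≤ k * c4 := by
    rw [div_le_iff₀ hc4] at hk
    exact hk
  obtain ⟨C, hC⟩ := lemmaE c4 hc4 x0 hx k
  obtain ⟨n, hn⟩ := exists_nat_gt (|C|)
  have h1 := hC n
  have h2 : (0 : ℝ) ≤ cnt K (n + 1) := Nat.cast_nonneg _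
  have h3 := le_abs_self C
  have h4 : (0 : ℝ) ≤ (n : ℝ) := Nat.cast_nonneg _
  nlinarith

end Pool.Agent.H35.Klarner
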