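import Mathlib

/-!
# Weighted colourings of a clique gadget

Counting lemmas for the counterexample to positive association of a colour class in bipartite
proper colourings.
-/

set_option autoImplicit false

open Finset

namespace Pool.Agent.H35.PosAssoc

/-- The number of colours different from both `x` and `y`. -/
def kap (q : ℕ) (x y : Fin q) : ℕ := if x = y then q - 1 else q - 2

/-- The total weight of the maps from `ι` into the palette `S`. -/
def Z (q : ℕ) (ι : Type) [Fintype ι] [DecidableEq ι] (S : Finset (Fin q)) : ℕ :=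
  ∑ g ∈ Fintype.piFinset (fun _ : ι => S), ∏ i, ∏ j, kap q (g i) (g j)

/-- The same total weight, computed recursively. -/
def P (α β : ℕ) : ℕ → ℕ → ℕ
  | 0, n => if n = 0 then 1 else 0
  | (r + 1), n => ∑ j ∈ range (n + 1),
      n.choose j * (α ^ (j * j) * β ^ (2 * (j * (n - j))) * P α β r (n - j))

theorem Z_empty (q : ℕ) (ι : Type) [Fintype ι] [DecidableEq ι] (α β : ℕ) :
    Z q ι (∅ : Finset (Fin q)) = P α β 0 (Fintype.card ι) := by
  unfold Z P
  rcases isEmpty_or_nonempty ι with h | h
  · rw [if_pos Fintype.card_eq_zero]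
    rw [Fintype.piFinset_of_isEmpty]
    simp
  · rw [if_neg Fintype.card_ne_zero]
    rw [Finset.sum_eq_zero]
    intro g hg
    exfalso
    rw [Fintype.mem_piFinset] at hg
    exact absurd (hg h.some) (Finset.notMem_empty _)

theorem prod_sub_const {ι : Type} [Fintype ι] (p : ι → Prop) [DecidablePred p] (J : Finset ι)
    (hJ : ∀ x, x ∈ J ↔ p x) (a : ℕ) : ∏ _i : {x // p x}, a = a ^ J.card := by
  rw [Finset.prod_const, card_univ, Fintype.card_of_subtype J hJ]

theorem weight_split (q : ℕ) (ι : Type) [Fintype ι] [DecidableEq ι] (S : Finset (Fin q))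
    (a : Fin q) (ha : a ∉ S) (J : Finset ι) (g : ι → Fin q) (h1 : ∀ i ∈ J, g i = a)
    (h2 : ∀ i, i ∉ J → g i ∈ S) :
    ∏ i, ∏ j, kap q (g i) (g j) =
      (q - 1) ^ (J.card * J.card) * (q - 2) ^ (2 * (J.card * (Fintype.card ι - J.card))) *
        ∏ i : {i // i ∉ J}, ∏ j : {i // i ∉ J}, kap q (g i) (g j) := by
  have hcJ : Fintype.card {i // i ∈ J} = J.card := Fintype.card_coe J
  have hcN : Fintype.card {i // i ∉ J} = Fintype.card ι - J.card := by
    rw [Fintype.card_subtype_compl, hcJ]
  have hJJ : ∀ i ∈ J, ∀ j ∈ J, kap q (g i) (g j) = q - 1 := by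
    intro i hi j hj
    rw [h1 i hi, h1 j hj]
    simp [kap]
  have hJN : ∀ i ∈ J, ∀ j, j ∉ J → kap q (g i) (g j) = q - 2 := by
    intro i hi j hj
    rw [h1 i hi]
    have : a ≠ g j := fun h => ha (h ▸ h2 j hj)
    simp [kap, this]
  have hNJ : ∀ i, i ∉ J → ∀ j ∈ J, kap q (g i) (g j) = q - 2 := by
    intro i hi j hj
    rw [h1 j hj]
    have : g i ≠ a := fun h => ha (h ▸ h2 i hi)
    simp [kap, this]
  have hrowJ : ∀ i ∈ J, ∏ j, kap q (g i) (g j) =
      (q - 1) ^ J.card * (q - 2) ^ (Fintype.card ι - J.card) := by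
    intro i hi
    rw [← Fintype.prod_subtype_mul_prod_subtype (fun j => j ∈ J)]
    congr 1
    · rw [Finset.prod_congr rfl (fun (j : {i // i ∈ J}) _ => hJJ i hi j j.2)]
      rw [prod_sub_const (fun j => j ∈ J) J (fun _ => Iff.rfl)]
    · rw [Finset.prod_congr rfl (fun (j : {i // i ∉ J}) _ => hJN i hi j j.2)]
      rw [Finset.prod_const, card_univ, hcN]
  have hrowN : ∀ i, i ∉ J → ∏ j, kap q (g i) (g j) =
      (q - 2) ^ J.card * ∏ j : {i // i ∉ J}, kap q (g i) (g j) := by
    intro i hi
    rw [← Fintype.prod_subtype_mul_prod_subtype (fun j => j ∈ J)]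
    congr 1
    rw [Finset.prod_congr rfl (fun (j : {i // i ∈ J}) _ => hNJ i hi j j.2)]
    rw [prod_sub_const (fun j => j ∈ J) J (fun _ => Iff.rfl)]
  rw [← Fintype.prod_subtype_mul_prod_subtype (fun j => j ∈ J)]
  rw [Finset.prod_congr rfl (fun (i : {i // i ∈ J}) _ => hrowJ i i.2)]
  rw [Finset.prod_congr rfl (fun (i : {i // i ∉ J}) _ => hrowN i i.2)]
  rw [prod_sub_const (fun j => j ∈ J) J (fun _ => Iff.rfl),
    Finset.prod_mul_distrib, Finset.prod_const, card_univ, hcN]
  ring

theorem Z_insert (q : ℕ) (ι : Type) [Fintype ι] [DecidableEq ι] (S : Finset (Fin q))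
    (a : Fin q) (ha : a ∉ S) :
    Z q ι (insert a S) = ∑ J : Finset ι,
      (q - 1) ^ (J.card * J.card) * (q - 2) ^ (2 * (J.card * (Fintype.card ι - J.card))) *
        Z q {i // i ∉ J} S := by
  unfold Z
  rw [← Finset.sum_fiberwise (s := Fintype.piFinset (fun _ : ι => insert a S))
    (g := fun g => univ.filter (fun i => g i = a))]
  apply Finset.sum_congr rfl
  intro J _
  rw [Finset.mul_sum]
  refine Finset.sum_bij' (fun g _ => fun (x : {i // i ∉ J}) => g x)
    (fun g' _ => fun i => if h : i ∈ J then a else g' ⟨i, h⟩) ?_ ?_ ?_ ?_ ?_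
  · intro g hg
    rw [mem_filter, Fintype.mem_piFinset] at hg
    rw [Fintype.mem_piFinset]
    intro x
    rcases mem_insert.mp (hg.1 x) with h | h
    · exfalso
      apply x.2
      have h5 : (x : ι) ∈ univ.filter (fun i => g i = a) := by simp [h]
      exact hg.2 ▸ h5
    · exact h
  · intro g' hg'
    rw [Fintype.mem_piFinset] at hg'
    rw [mem_filter, Fintype.mem_piFinset]
    constructor
    · intro i
      by_cases h : i ∈ J
      · simp [h]
      · simp only [h, dite_false]
        exact mem_insert_of_mem (hg' _)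
    · ext i
      by_cases h : i ∈ J
      · simp [h]
      · simp only [mem_filter, mem_univ, true_and, h, dite_false, iff_false]
        intro h'
        exact ha (h' ▸ hg' ⟨i, h⟩)
  · intro g hg
    rw [mem_filter, Fintype.mem_piFinset] at hg
    funext i
    by_cases h : i ∈ J
    · simp only [h, dite_true]
      rw [← hg.2, mem_filter] at h
      exact h.2.symm
    · simp only [h, dite_false]
  · intro g' hg'
    funext x
    simp [x.2]
  · intro g hg
    rw [mem_filter, Fintype.mem_piFinset] at hg
    apply weight_split q ι S a ha J g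
    · intro i hi
      rw [← hg.2] at hi
      simpa using hi
    · intro i hi
      rcases mem_insert.mp (hg.1 i) with h | h
      · exfalso
        apply hi
        rw [← hg.2]
        simp [h]
      · exact h

theorem Z_eq (q : ℕ) (S : Finset (Fin q)) : ∀ (ι : Type) [Fintype ι] [DecidableEq ι],
    Z q ι S = P (q - 1) (q - 2) S.card (Fintype.card ι) := by
  induction S using Finset.induction_on with
  | empty =>
    intro ι _ _
    rw [card_empty]
    exact Z_empty q ι _ _
  | insert a S ha ih =>
    intro ι _ _
    rw [Z_insert q ι S a ha, card_insert_of_notMem ha]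
    have h1 : ∀ J : Finset ι, (q - 1) ^ (J.card * J.card) *
        (q - 2) ^ (2 * (J.card * (Fintype.card ι - J.card))) * Z q {i // i ∉ J} S =
        (fun j => (q - 1) ^ (j * j) * (q - 2) ^ (2 * (j * (Fintype.card ι - j))) *
          P (q - 1) (q - 2) S.card (Fintype.card ι - j)) J.card := by
      intro J
      rw [ih {i // i ∉ J}]
      have hcN : Fintype.card {i // i ∉ J} = Fintype.card ι - J.card := by
        rw [Fintype.card_subtype_compl, Fintype.card_coe J]
      rw [hcN]
    rw [Finset.sum_congr rfl (fun J _ => h1 J)]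
    have h2 := Finset.sum_powerset_apply_card (x := (univ : Finset ι)) (fun j =>
      (q - 1) ^ (j * j) * (q - 2) ^ (2 * (j * (Fintype.card ι - j))) *
          P (q - 1) (q - 2) S.card (Fintype.card ι - j))
    rw [Finset.powerset_univ] at h2
    rw [h2, card_univ]
    simp only [P, smul_eq_mul]

/-! ## Sums over maps to the colours -/

/-- One step of the recursion for sums over maps `Fin m → Fin q` of functions of the size of the
image and of whether the image contains a given colour. -/
def Top (q : ℕ) (ψ : ℕ → Bool → ℕ) (y : ℕ) (f : Bool) : ℕ :=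
  match f with
  | true => y * ψ y true + (q - y) * ψ (y + 1) true
  | false => y * ψ y false + (q - 1 - y) * ψ (y + 1) false + ψ (y + 1) true

theorem sum_insert_step (q : ℕ) (c : Fin q) (ψ : ℕ → Bool → ℕ) (I : Finset (Fin q)) :
    ∑ x : Fin q, ψ (insert x I).card (decide (c ∈ insert x I)) =
      Top q ψ I.card (decide (c ∈ I)) := by
  classical
  by_cases hc : c ∈ I
  · have h1 : ∀ x ∈ I, ψ (insert x I).card (decide (c ∈ insert x I)) = ψ I.card true := by
      intro x hx
      rw [insert_eq_of_mem hx]
      simp [hc]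
    have h2 : ∀ x ∈ Iᶜ, ψ (insert x I).card (decide (c ∈ insert x I)) = ψ (I.card + 1) true := by
      intro x hx
      rw [mem_compl] at hx
      rw [card_insert_of_notMem hx]
      simp [hc]
    rw [← Finset.sum_add_sum_compl I, Finset.sum_congr rfl h1, Finset.sum_congr rfl h2,
      Finset.sum_const, Finset.sum_const, card_compl, Fintype.card_fin]
    simp [Top, hc]
  · have h1 : ∀ x ∈ I, ψ (insert x I).card (decide (c ∈ insert x I)) = ψ I.card false := by
      intro x hx
      rw [insert_eq_of_mem hx]
      simp [hc]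
    have hc' : c ∈ Iᶜ := mem_compl.mpr hc
    have h3 : ∀ x ∈ Iᶜ.erase c, ψ (insert x I).card (decide (c ∈ insert x I)) =
        ψ (I.card + 1) false := by
      intro x hx
      rw [mem_erase, mem_compl] at hx
      rw [card_insert_of_notMem hx.2]
      have : c ∉ insert x I := by
        rw [mem_insert]
        push Not
        exact ⟨fun h => hx.1 h.symm, hc⟩
      simp [this]
    rw [← Finset.sum_add_sum_compl I, Finset.sum_congr rfl h1,
      ← Finset.sum_erase_add _ _ hc', Finset.sum_congr rfl h3,
      Finset.sum_const, Finset.sum_const, card_erase_of_mem hc', card_compl, Fintype.card_fin]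
    have h4 : (insert c I).card = I.card + 1 := card_insert_of_notMem hc
    rw [h4]
    simp only [Top, hc, decide_false, mem_insert, true_or, decide_true, smul_eq_mul]
    have h5 : q - I.card - 1 = q - 1 - I.card := by omega
    rw [h5]
    ring

theorem sum_b (q : ℕ) (c : Fin q) : ∀ (m : ℕ) (ψ : ℕ → Bool → ℕ),
    ∑ b : Fin m → Fin q, ψ (univ.image b).card (decide (c ∈ univ.image b)) =
      ((Top q)^[m] ψ) 0 false := by
  intro m
  induction m with
  | zero =>
    intro ψ
    simp
  | succ m ih =>
    intro ψ
    rw [Function.iterate_succ_apply, ← ih (Top q ψ)]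
    rw [← (Fin.consEquiv (fun _ : Fin (m + 1) => Fin q)).sum_comp, Fintype.sum_prod_type,
      Finset.sum_comm]
    apply Finset.sum_congr rfl
    intro b _
    rw [← sum_insert_step]
    apply Finset.sum_congr rfl
    intro x _
    have h1 : univ.image ((Fin.consEquiv (fun _ : Fin (m + 1) => Fin q)) (x, b)) =
        insert x (univ.image b) := by
      ext y
      simp only [mem_image, mem_univ, true_and, mem_insert, Fin.consEquiv_apply]
      rw [Fin.exists_fin_succ]
      simp [eq_comm]
    rw [h1]

end Pool.Agent.H35.PosAssoc
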