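import Mathlib
import Pool.Agent.H35.PosAssocA

/-!
# The gadget graph and the number of its proper colourings
-/

set_option autoImplicit false

open Finset

namespace Pool.Agent.H35.PosAssoc

/-- Vertices: `k` vertices `u i`, `n` vertices `v i` (these form the side `A`), `m` vertices
joined to all `u` and `v`, and for each ordered pair `(i, j)` a vertex joined to `v i` and `v j`. -/
abbrev VT (k n m : ℕ) : Type := Fin k ⊕ Fin n ⊕ Fin m ⊕ (Fin n × Fin n)

/-- Edges, from `A` to `B`. -/
def EB {k n m : ℕ} : VT k n m → VT k n m → Prop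
  | .inl _, .inr (.inr (.inl _)) => True
  | .inr (.inl _), .inr (.inr (.inl _)) => True
  | .inr (.inl v), .inr (.inr (.inr p)) => v = p.1 ∨ v = p.2
  | _, _ => False

/-- The side `A`. -/
def sideA {k n m : ℕ} : VT k n m → Bool
  | .inl _ => true
  | .inr (.inl _) => true
  | _ => false

theorem EB_side {k n m : ℕ} : ∀ {x y : VT k n m}, EB x y → sideA x = true ∧ sideA y = false
  | .inl _, .inr (.inr (.inl _)), _ => ⟨rfl, rfl⟩
  | .inr (.inl _), .inr (.inr (.inl _)), _ => ⟨rfl, rfl⟩
  | .inr (.inl _), .inr (.inr (.inr _)), _ => ⟨rfl, rfl⟩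
  | .inl _, .inl _, h => h.elim
  | .inl _, .inr (.inl _), h => h.elim
  | .inl _, .inr (.inr (.inr _)), h => h.elim
  | .inr (.inl _), .inl _, h => h.elim
  | .inr (.inl _), .inr (.inl _), h => h.elim
  | .inr (.inr (.inl _)), .inl _, h => h.elim
  | .inr (.inr (.inl _)), .inr _, h => h.elim
  | .inr (.inr (.inr _)), .inl _, h => h.elim
  | .inr (.inr (.inr _)), .inr _, h => h.elim

/-- The gadget graph. -/
def GG (k n m : ℕ) : SimpleGraph (VT k n m) where
  Adj x y := EB x y ∨ EB y x
  symm := ⟨fun _ _ h => h.symm⟩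
  loopless := ⟨fun x h => by
    rcases h with h | h
    · have := EB_side h
      rw [this.1] at this
      exact absurd this.2 (by simp)
    · have := EB_side h
      rw [this.1] at this
      exact absurd this.2 (by simp)⟩

/-- Proper colourings. -/
def Proper {k n m q : ℕ} (f : VT k n m → Fin q) : Prop :=
  ∀ v w, (GG k n m).Adj v w → f v ≠ f w

theorem proper_iff {k n m q : ℕ} (f : VT k n m → Fin q) : Proper f ↔
    (∀ i b, f (.inl i) ≠ f (.inr (.inr (.inl b)))) ∧
    (∀ i b, f (.inr (.inl i)) ≠ f (.inr (.inr (.inl b)))) ∧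
    (∀ p : Fin n × Fin n, f (.inr (.inr (.inr p))) ≠ f (.inr (.inl p.1)) ∧
      f (.inr (.inr (.inr p))) ≠ f (.inr (.inl p.2))) := by
  constructor
  · intro h
    refine ⟨fun i b => h _ _ (Or.inl trivial), fun i b => h _ _ (Or.inl trivial), fun p => ⟨?_, ?_⟩⟩
    · exact h _ _ (Or.inr (show p.1 = p.1 ∨ p.1 = p.2 from Or.inl rfl))
    · exact h _ _ (Or.inr (show p.2 = p.1 ∨ p.2 = p.2 from Or.inr rfl))
  · rintro ⟨h1, h2, h3⟩
    have key : ∀ x y : VT k n m, EB x y → f x ≠ f y := by
      intro x y hxy
      match x, y, hxy with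
      | .inl i, .inr (.inr (.inl b)), _ => exact h1 i b
      | .inr (.inl i), .inr (.inr (.inl b)), _ => exact h2 i b
      | .inr (.inl i), .inr (.inr (.inr p)), h =>
        rcases (show i = p.1 ∨ i = p.2 from h) with h | h
        · rw [h]; exact (h3 p).1.symm
        · rw [h]; exact (h3 p).2.symm
      | .inl _, .inl _, h => exact h.elim
      | .inl _, .inr (.inl _), h => exact h.elim
      | .inl _, .inr (.inr (.inr _)), h => exact h.elim
      | .inr (.inl _), .inl _, h => exact h.elim
      | .inr (.inl _), .inr (.inl _), h => exact h.elim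
      | .inr (.inr (.inl _)), .inl _, h => exact h.elim
      | .inr (.inr (.inl _)), .inr _, h => exact h.elim
      | .inr (.inr (.inr _)), .inl _, h => exact h.elim
      | .inr (.inr (.inr _)), .inr _, h => exact h.elim
    intro v w hvw
    rcases hvw with h | h
    · exact key v w h
    · exact (key w v h).symm

theorem card_avoid (q : ℕ) (x y : Fin q) :
    (univ.filter (fun z : Fin q => z ≠ x ∧ z ≠ y)).card = kap q x y := by
  unfold kap
  split_ifs with h
  · subst h
    have : univ.filter (fun z : Fin q => z ≠ x ∧ z ≠ x) = univ.erase x := by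
      ext z; simp
    rw [this, card_erase_of_mem (mem_univ _), card_univ, Fintype.card_fin]
  · have : univ.filter (fun z : Fin q => z ≠ x ∧ z ≠ y) = (univ.erase x).erase y := by
      ext z; simp [and_comm]
    rw [this, card_erase_of_mem (mem_erase.mpr ⟨fun h' => h h'.symm, mem_univ _⟩),
      card_erase_of_mem (mem_univ _), card_univ, Fintype.card_fin]
    omega

open Classical in
/-- The number of proper colourings with the `u`'s coloured from `PU` and the `v`'s from `PV`. -/
theorem count (k n m q : ℕ) (PU PV : Finset (Fin q)) :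
    (univ.filter (fun f : VT k n m → Fin q => Proper f ∧ (∀ i, f (.inl i) ∈ PU) ∧
      (∀ i, f (.inr (.inl i)) ∈ PV))).card =
    ∑ b : Fin m → Fin q, (PU \ univ.image b).card ^ k * Z q (Fin n) (PV \ univ.image b) := by
  have hR : ∀ b : Fin m → Fin q, (PU \ univ.image b).card ^ k * Z q (Fin n) (PV \ univ.image b) =
      ∑ g ∈ Fintype.piFinset (fun _ : Fin n => PV \ univ.image b),
        ((Fintype.piFinset (fun _ : Fin k => PU \ univ.image b)) ×ˢ
          (Fintype.piFinset (fun p : Fin n × Fin n =>
            univ.filter (fun z : Fin q => z ≠ g p.1 ∧ z ≠ g p.2)))).card := by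
    intro b
    unfold Z
    rw [Finset.mul_sum]
    apply Finset.sum_congr rfl
    intro g _
    rw [card_product, Fintype.card_piFinset_const, Fintype.card_piFinset, Fintype.prod_prod_type]
    congr 1
    apply Finset.prod_congr rfl
    intro i _
    apply Finset.prod_congr rfl
    intro j _
    exact (card_avoid q (g i) (g j)).symm
  rw [Finset.sum_congr rfl (fun b _ => hR b)]
  simp_rw [← Finset.card_sigma]
  refine Finset.card_bij' (fun f _ => ⟨fun b => f (.inr (.inr (.inl b))),
      ⟨fun i => f (.inr (.inl i)), (fun i => f (.inl i), fun p => f (.inr (.inr (.inr p))))⟩⟩)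
    (fun t _ => Sum.elim t.2.2.1 (Sum.elim t.2.1 (Sum.elim t.1 t.2.2.2))) ?_ ?_ ?_ ?_
  · intro f hf
    rw [mem_filter, proper_iff] at hf
    obtain ⟨_, ⟨h1, h2, h3⟩, h4, h5⟩ := hf
    rw [mem_sigma, mem_sigma, mem_product, Fintype.mem_piFinset, Fintype.mem_piFinset,
      Fintype.mem_piFinset]
    refine ⟨mem_univ _, ?_, ?_, ?_⟩
    · intro i
      rw [mem_sdiff]
      refine ⟨h5 i, ?_⟩
      simp only [mem_image, mem_univ, true_and, not_exists]
      intro b hb
      exact h2 i b hb.symm
    · intro i
      rw [mem_sdiff]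
      refine ⟨h4 i, ?_⟩
      simp only [mem_image, mem_univ, true_and, not_exists]
      intro b hb
      exact h1 i b hb.symm
    · intro p
      rw [mem_filter]
      exact ⟨mem_univ _, h3 p⟩
  · rintro ⟨b, g, u, p⟩ ht
    rw [mem_sigma, mem_sigma, mem_product, Fintype.mem_piFinset, Fintype.mem_piFinset,
      Fintype.mem_piFinset] at ht
    obtain ⟨_, hg, hu, hp⟩ := ht
    dsimp only at hg hu hp
    rw [mem_filter, proper_iff]
    refine ⟨mem_univ _, ⟨?_, ?_, ?_⟩, ?_, ?_⟩
    · intro i b'
      have := hu i
      rw [mem_sdiff] at this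
      intro h
      apply this.2
      simp only [Sum.elim_inl, Sum.elim_inr] at h
      rw [h]
      exact mem_image_of_mem _ (mem_univ _)
    · intro i b'
      have := hg i
      rw [mem_sdiff] at this
      intro h
      apply this.2
      simp only [Sum.elim_inl, Sum.elim_inr] at h
      rw [h]
      exact mem_image_of_mem _ (mem_univ _)
    · intro p'
      have := hp p'
      rw [mem_filter] at this
      exact this.2
    · intro i
      exact (mem_sdiff.mp (hu i)).1
    · intro i
      exact (mem_sdiff.mp (hg i)).1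
  · intro f _
    funext x
    rcases x with i | i | i | i <;> rfl
  · rintro ⟨b, g, u, p⟩ _
    rfl

end Pool.Agent.H35.PosAssoc
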