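import Mathlib
import Pool.Agent.H35.PosAssocC

/-!
# The four counts
-/

set_option autoImplicit false

open Finset

namespace Pool.Agent.H35.PosAssoc

theorem Z_pt (S : Finset (Fin 9)) : Z 9 (Fin 16) S = pt S.card := by
  rw [Z_eq 9 S (Fin 16), Fintype.card_fin]
  have h : S.card ≤ 9 := by
    have := S.card_le_univ
    rwa [Fintype.card_fin] at this
  exact P_eq_tb S.card h 16 (le_refl _)

theorem card_univ_sdiff (I : Finset (Fin 9)) : (univ \ I).card = 9 - I.card := by
  rw [← compl_eq_univ_sdiff, card_compl, Fintype.card_fin]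

theorem card_erase_sdiff (c : Fin 9) (I : Finset (Fin 9)) :
    ((univ.erase c) \ I).card = if c ∈ I then 9 - I.card else 8 - I.card := by
  split_ifs with h
  · have : (univ.erase c) \ I = univ \ I := by
      ext x
      simp only [mem_sdiff, mem_erase, mem_univ, and_true, true_and]
      constructor
      · exact fun hx => hx.2
      · exact fun hx => ⟨fun hxc => hx (hxc ▸ h), hx⟩
    rw [this, card_univ_sdiff]
  · have : (univ.erase c) \ I = (univ \ I).erase c := by
      ext x
      simp only [mem_sdiff, mem_erase, mem_univ, and_true, true_and]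
    rw [this, card_erase_of_mem (by simp [h]), card_univ_sdiff]
    omega

theorem card_single_sdiff (c : Fin 9) (I : Finset (Fin 9)) :
    (({c} : Finset (Fin 9)) \ I).card = if c ∈ I then 0 else 1 := by
  split_ifs with h
  · rw [card_eq_zero, sdiff_eq_empty_iff_subset, singleton_subset_iff]
    exact h
  · have : ({c} : Finset (Fin 9)) \ I = {c} := by
      ext x
      simp only [mem_sdiff, mem_singleton]
      constructor
      · exact fun hx => hx.1
      · exact fun hx => ⟨hx, fun hI => h (hx ▸ hI)⟩
    rw [this, card_singleton]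

theorem sum1 (c : Fin 9) : ∑ b : Fin 6 → Fin 9, ((univ : Finset (Fin 9)) \ univ.image b).card ^ 60 *
    Z 9 (Fin 16) ((univ : Finset (Fin 9)) \ univ.image b) = ((Top 9)^[6] psi1) 0 false := by
  rw [← sum_b 9 c 6 psi1]
  apply Finset.sum_congr rfl
  intro b _
  rw [Z_pt, card_univ_sdiff]
  rfl

theorem sum2 (c : Fin 9) : ∑ b : Fin 6 → Fin 9, ((univ : Finset (Fin 9)) \ univ.image b).card ^ 60 *
    Z 9 (Fin 16) ((univ.erase c) \ univ.image b) = ((Top 9)^[6] psi2) 0 false := by
  rw [← sum_b 9 c 6 psi2]
  apply Finset.sum_congr rfl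
  intro b _
  rw [Z_pt, card_univ_sdiff, card_erase_sdiff]
  by_cases h : c ∈ univ.image b
  · simp only [h, if_true, decide_true, psi2]
  · simp only [h, if_false, decide_false, psi2, Bool.false_eq_true]

theorem sum3 (c : Fin 9) : ∑ b : Fin 6 → Fin 9, (({c} : Finset (Fin 9)) \ univ.image b).card ^ 60 *
    Z 9 (Fin 16) ((univ : Finset (Fin 9)) \ univ.image b) = ((Top 9)^[6] psi3) 0 false := by
  rw [← sum_b 9 c 6 psi3]
  apply Finset.sum_congr rfl
  intro b _
  rw [Z_pt, card_univ_sdiff, card_single_sdiff]
  by_cases h : c ∈ univ.image b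
  · simp only [h, if_true, decide_true, psi3, zero_mul, ne_eq, OfNat.ofNat_ne_zero, not_false_eq_true,
      zero_pow]
  · simp only [h, if_false, decide_false, psi3, one_pow, one_mul, Bool.false_eq_true]

theorem sum4 (c : Fin 9) : ∑ b : Fin 6 → Fin 9, (({c} : Finset (Fin 9)) \ univ.image b).card ^ 60 *
    Z 9 (Fin 16) ((univ.erase c) \ univ.image b) = ((Top 9)^[6] psi4) 0 false := by
  rw [← sum_b 9 c 6 psi4]
  apply Finset.sum_congr rfl
  intro b _
  rw [Z_pt, card_erase_sdiff, card_single_sdiff]
  by_cases h : c ∈ univ.image b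
  · simp only [h, if_true, decide_true, psi4, zero_mul, ne_eq, OfNat.ofNat_ne_zero, not_false_eq_true,
      zero_pow]
  · simp only [h, if_false, decide_false, psi4, one_pow, one_mul, Bool.false_eq_true]

open Classical in
/-- The numbers of proper colourings satisfy the strict inequality. -/
theorem main_ineq (c : Fin 9) :
    (univ.filter (fun f : VT 60 16 6 → Fin 9 => Proper f ∧ (∀ i, f (.inl i) = c))).card *
      (univ.filter (fun f : VT 60 16 6 → Fin 9 => Proper f ∧ (∀ i, f (.inr (.inl i)) ≠ c))).card <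
    (univ.filter (fun f : VT 60 16 6 → Fin 9 => Proper f)).card *
      (univ.filter (fun f : VT 60 16 6 → Fin 9 => Proper f ∧ (∀ i, f (.inl i) = c) ∧
        (∀ i, f (.inr (.inl i)) ≠ c))).card := by
  have h1 := count 60 16 6 9 univ univ
  have h2 := count 60 16 6 9 univ (univ.erase c)
  have h3 := count 60 16 6 9 {c} univ
  have h4 := count 60 16 6 9 {c} (univ.erase c)
  rw [sum1 c] at h1
  rw [sum2 c] at h2
  rw [sum3 c] at h3
  rw [sum4 c] at h4
  simp only [mem_univ, implies_true, and_true, true_and, mem_singleton, mem_erase, ne_eq] at h1 h2 h3 h4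
  simp only [ne_eq]
  rw [h1, h2, h3, h4]
  exact numeric

end Pool.Agent.H35.PosAssoc
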