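import Mathlib

/-!
# Turán systems: greedy bound and composition
-/

set_option autoImplicit false

open Finset

namespace Pool.Agent.H35.Turan

/-- `E` is an `r`-graph on `Fin n` all of whose independent sets have fewer than `k` elements. -/
def IsTuranSystem (n k r : ℕ) (E : Finset (Finset (Fin n))) : Prop :=
  (∀ e ∈ E, e.card = r) ∧ ∀ I : Finset (Fin n), (∀ e ∈ E, ¬ e ⊆ I) → I.card < k

/-- Greedy step iterated. -/
theorem greedy (m k r : ℕ) (hrk : r ≤ k) (hkm : k ≤ m) :
    ∀ (M : ℕ) (X : Finset (Finset (Fin m))), (∀ K ∈ X, K.card = k) →
      ∃ H : Finset (Finset (Fin m)), (∀ e ∈ H, e.card = r) ∧ H.card ≤ M ∧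
        ((X.filter (fun K => ∀ e ∈ H, ¬ e ⊆ K)).card : ℝ) ≤
          X.card * (1 - (k.choose r : ℝ) / (m.choose r : ℝ)) ^ M := by
  intro M
  induction M with
  | zero =>
    intro X _
    refine ⟨∅, by simp, by simp, ?_⟩
    simp
  | succ M ih =>
    intro X hX
    classical
    have hmr : 0 < m.choose r := Nat.choose_pos (hrk.trans hkm)
    -- double counting
    have hdc : ∑ e ∈ powersetCard r (univ : Finset (Fin m)), (X.filter (fun K => e ⊆ K)).card =
        X.card * k.choose r := by
      calc ∑ e ∈ powersetCard r (univ : Finset (Fin m)), (X.filter (fun K => e ⊆ K)).card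
          = ∑ e ∈ powersetCard r (univ : Finset (Fin m)), ∑ K ∈ X, (if e ⊆ K then 1 else 0) := by
            apply Finset.sum_congr rfl
            intro e _
            rw [Finset.card_filter]
        _ = ∑ K ∈ X, ∑ e ∈ powersetCard r (univ : Finset (Fin m)), (if e ⊆ K then 1 else 0) :=
            Finset.sum_comm
        _ = ∑ K ∈ X, k.choose r := by
            apply Finset.sum_congr rfl
            intro K hK
            rw [← Finset.card_filter]
            have : (powersetCard r (univ : Finset (Fin m))).filter (fun e => e ⊆ K) =
                powersetCard r K := by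
              ext e
              simp only [mem_filter, mem_powersetCard, subset_univ, true_and]
              tauto
            rw [this, card_powersetCard, hX K hK]
        _ = X.card * k.choose r := by rw [Finset.sum_const, smul_eq_mul]
    -- choose the best edge
    obtain ⟨e0, he0, hmax⟩ : ∃ e0 ∈ powersetCard r (univ : Finset (Fin m)),
        (X.card * k.choose r : ℝ) ≤ (m.choose r : ℝ) * (X.filter (fun K => e0 ⊆ K)).card := by
      by_contra hcon
      push Not at hcon
      have hlt : ∑ e ∈ powersetCard r (univ : Finset (Fin m)),
          ((m.choose r : ℝ) * (X.filter (fun K => e ⊆ K)).card) <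
          ∑ e ∈ powersetCard r (univ : Finset (Fin m)), (X.card * k.choose r : ℝ) := by
        apply Finset.sum_lt_sum_of_nonempty
        · rw [← Finset.card_pos, card_powersetCard, card_univ, Fintype.card_fin]
          exact hmr
        · exact hcon
      rw [← Finset.mul_sum, Finset.sum_const, card_powersetCard, card_univ, Fintype.card_fin,
        nsmul_eq_mul] at hlt
      have h2 : ((∑ e ∈ powersetCard r (univ : Finset (Fin m)),
          (X.filter (fun K => e ⊆ K)).card : ℕ) : ℝ) = (X.card * k.choose r : ℕ) := by
        exact_mod_cast hdc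
      push_cast at h2
      rw [h2] at hlt
      exact lt_irrefl _ hlt
    set Y := X.filter (fun K => ¬ e0 ⊆ K) with hY
    have hYc : (Y.card : ℝ) ≤ X.card * (1 - (k.choose r : ℝ) / (m.choose r : ℝ)) := by
      have h1 : (X.filter (fun K => e0 ⊆ K)).card + Y.card = X.card :=
        Finset.card_filter_add_card_filter_not _
      have h2 : (Y.card : ℝ) = X.card - (X.filter (fun K => e0 ⊆ K)).card := by
        rw [← h1]; push_cast; ring
      rw [h2]
      have hmr' : (0 : ℝ) < m.choose r := by exact_mod_cast hmr
      have h3 : (X.card : ℝ) * ((k.choose r : ℝ) / (m.choose r : ℝ)) ≤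
          (X.filter (fun K => e0 ⊆ K)).card := by
        rw [← mul_div_assoc, div_le_iff₀ hmr']
        linarith
      linarith
    obtain ⟨H, hH1, hH2, hH3⟩ := ih Y (fun K hK => hX K (Finset.mem_filter.mp hK).1)
    refine ⟨insert e0 H, ?_, ?_, ?_⟩
    · intro e he
      rcases Finset.mem_insert.mp he with h | h
      · rw [h]; exact (mem_powersetCard.mp he0).2
      · exact hH1 e h
    · exact le_trans (Finset.card_insert_le _ _) (by omega)
    · have hρ : (k.choose r : ℝ) / (m.choose r : ℝ) ≤ 1 := by
        rw [div_le_one (by exact_mod_cast hmr)]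
        exact_mod_cast Nat.choose_le_choose r hkm
      have hsub : X.filter (fun K => ∀ e ∈ insert e0 H, ¬ e ⊆ K) =
          Y.filter (fun K => ∀ e ∈ H, ¬ e ⊆ K) := by
        ext K
        simp only [hY, mem_filter, mem_insert, forall_eq_or_imp]
        tauto
      rw [hsub]
      calc ((Y.filter (fun K => ∀ e ∈ H, ¬ e ⊆ K)).card : ℝ)
          ≤ Y.card * (1 - (k.choose r : ℝ) / (m.choose r : ℝ)) ^ M := hH3
        _ ≤ (X.card * (1 - (k.choose r : ℝ) / (m.choose r : ℝ))) *
              (1 - (k.choose r : ℝ) / (m.choose r : ℝ)) ^ M := by
            apply mul_le_mul_of_nonneg_right hYc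
            apply pow_nonneg
            linarith
        _ = X.card * (1 - (k.choose r : ℝ) / (m.choose r : ℝ)) ^ (M + 1) := by ring

/-- Greedy bound for Turán systems. -/
theorem exists_system (m k r : ℕ) (hrk : r ≤ k) (hkm : k ≤ m) :
    ∃ H : Finset (Finset (Fin m)), IsTuranSystem m k r H ∧
      (H.card : ℝ) ≤ Real.log (m.choose k) * ((m.choose r : ℝ) / (k.choose r : ℝ)) + 1 := by
  classical
  set ρ : ℝ := (k.choose r : ℝ) / (m.choose r : ℝ) with hρ
  have hmr : (0 : ℝ) < m.choose r := by exact_mod_cast Nat.choose_pos (hrk.trans hkm)
  have hkr : (0 : ℝ) < k.choose r := by exact_mod_cast Nat.choose_pos hrk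
  have hmk : (0 : ℝ) < m.choose k := by exact_mod_cast Nat.choose_pos hkm
  have hmk1 : (1 : ℝ) ≤ m.choose k := by exact_mod_cast Nat.choose_pos hkm
  have hρpos : 0 < ρ := by positivity
  have hρ1 : ρ ≤ 1 := by
    rw [hρ, div_le_one hmr]
    exact_mod_cast Nat.choose_le_choose r hkm
  set L : ℝ := Real.log (m.choose k) with hL
  have hLnn : 0 ≤ L := Real.log_nonneg hmk1
  set M : ℕ := ⌊L / ρ⌋₊ + 1 with hM
  have hMgt : L / ρ < M := by
    rw [hM]; push_cast; exact Nat.lt_floor_add_one _
  have hMle : (M : ℝ) ≤ L / ρ + 1 := by
    rw [hM]; push_cast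
    have := Nat.floor_le (div_nonneg hLnn hρpos.le)
    linarith
  obtain ⟨H, h1, h2, h3⟩ := greedy m k r hrk hkm M (powersetCard k univ)
    (fun K hK => (mem_powersetCard.mp hK).2)
  rw [card_powersetCard, card_univ, Fintype.card_fin, ← hρ] at h3
  have h4 : (m.choose k : ℝ) * (1 - ρ) ^ M < 1 := by
    have h5 : (1 - ρ) ^ M ≤ Real.exp (-ρ) ^ M := by
      apply pow_le_pow_left₀ (by linarith)
      have := Real.add_one_le_exp (-ρ)
      linarith
    have h6 : Real.exp (-ρ) ^ M = Real.exp (-(ρ * M)) := by
      rw [← Real.exp_nat_mul]; ring_nf
    have h7 : L < ρ * M := by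
      rw [div_lt_iff₀ hρpos] at hMgt
      linarith
    have h8 : Real.exp (-(ρ * M)) < Real.exp (-L) := Real.exp_lt_exp.mpr (by linarith)
    have h9 : Real.exp (-L) = 1 / m.choose k := by
      rw [Real.exp_neg, hL, Real.exp_log hmk, one_div]
    calc (m.choose k : ℝ) * (1 - ρ) ^ M ≤ (m.choose k : ℝ) * Real.exp (-(ρ * M)) := by
          apply mul_le_mul_of_nonneg_left _ hmk.le
          rw [← h6]; exact h5
      _ < (m.choose k : ℝ) * (1 / m.choose k) := by
          apply mul_lt_mul_of_pos_left _ hmk
          rw [← h9]; exact h8
      _ = 1 := by field_simp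
  have h10 : ((powersetCard k (univ : Finset (Fin m))).filter (fun K => ∀ e ∈ H, ¬ e ⊆ K)).card = 0 := by
    have : (((powersetCard k (univ : Finset (Fin m))).filter
        (fun K => ∀ e ∈ H, ¬ e ⊆ K)).card : ℝ) < 1 := lt_of_le_of_lt h3 h4
    have h11 : ((powersetCard k (univ : Finset (Fin m))).filter
        (fun K => ∀ e ∈ H, ¬ e ⊆ K)).card < 1 := by exact_mod_cast this
    omega
  refine ⟨H, ⟨h1, ?_⟩, ?_⟩
  · intro I hI
    by_contra hcon
    push Not at hcon
    obtain ⟨K, hKI, hKc⟩ := Finset.exists_subset_card_eq hcon
    have hmem : K ∈ (powersetCard k (univ : Finset (Fin m))).filter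
        (fun K => ∀ e ∈ H, ¬ e ⊆ K) := by
      rw [mem_filter, mem_powersetCard]
      refine ⟨⟨subset_univ _, hKc⟩, ?_⟩
      intro e he heK
      exact hI e he (heK.trans hKI)
    rw [Finset.card_eq_zero] at h10
    rw [h10] at hmem
    exact absurd hmem (Finset.notMem_empty _)
  · have h12 : L / ρ = L * ((m.choose r : ℝ) / (k.choose r : ℝ)) := by
      rw [hρ]; field_simp
    calc (H.card : ℝ) ≤ M := by exact_mod_cast h2
      _ ≤ L / ρ + 1 := hMle
      _ = _ := by rw [h12]

section compose

variable {n m : ℕ} (c : Fin n → Fin m)

/-- All `r`-sets meeting at most `s` cells. -/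
def famI (c : Fin n → Fin m) (r s : ℕ) : Finset (Finset (Fin n)) :=
  (powersetCard r univ).filter (fun e => (e.image c).card ≤ s)

/-- All `r`-sets whose cell set is an edge of `H`. -/
def famII (c : Fin n → Fin m) (r : ℕ) (H : Finset (Finset (Fin m))) : Finset (Finset (Fin n)) :=
  (powersetCard r univ).filter (fun e => e.image c ∈ H)

theorem compose_system (r j k' : ℕ) (hj : 2 * j ≤ r) (hrk : r ≤ k' + j - 1) (hj1 : 1 ≤ j)
    (H : Finset (Finset (Fin m))) (hH : IsTuranSystem m k' r H) :
    IsTuranSystem n (k' + j - 1) r (famI c r (r - j) ∪ famII c r H) := by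
  classical
  constructor
  · intro e he
    rcases Finset.mem_union.mp he with h | h
    · exact (mem_powersetCard.mp (Finset.mem_filter.mp h).1).2
    · exact (mem_powersetCard.mp (Finset.mem_filter.mp h).1).2
  · intro X hX
    by_contra hcon
    push Not at hcon
    have hXr : r ≤ X.card := le_trans hrk hcon
    -- a transversal
    obtain ⟨X', hX'sub, hX'img, hX'inj⟩ : ∃ X' ⊆ X, X'.image c = X.image c ∧
        Set.InjOn c (X' : Set (Fin n)) := by
      have hsurj : Set.SurjOn c (X : Set (Fin n)) ((X.image c : Finset (Fin m)) : Set (Fin m)) := by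
        intro y hy
        rw [Finset.mem_coe, Finset.mem_image] at hy
        obtain ⟨x, hx, hxy⟩ := hy
        exact ⟨x, hx, hxy⟩
      obtain ⟨u, hu1, hu2, hu3⟩ :=
        Finset.exists_subset_injOn_image_eq_of_surjOn _ _ hsurj
      refine ⟨u, by exact_mod_cast hu1, hu3, hu2⟩
    have hX'card : X'.card = (X.image c).card := by
      rw [← hX'img, Finset.card_image_of_injOn hX'inj]
    by_cases hcol : j ≤ X.card - (X.image c).card
    · -- collision edge
      have hD : j ≤ (X \ X').card := by
        rw [Finset.card_sdiff_of_subset hX'sub, hX'card]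
        exact hcol
      obtain ⟨D, hDsub, hDcard⟩ := Finset.exists_subset_card_eq hD
      -- representatives
      set R := X'.filter (fun x => c x ∈ D.image c) with hR
      have hRcard : R.card ≤ j := by
        calc R.card = (R.image c).card := by
              rw [Finset.card_image_of_injOn]
              exact hX'inj.mono (by
                intro x hx
                exact (Finset.mem_filter.mp hx).1)
          _ ≤ (D.image c).card := by
              apply Finset.card_le_card
              intro y hy
              rw [Finset.mem_image] at hy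
              obtain ⟨x, hx, rfl⟩ := hy
              exact (Finset.mem_filter.mp hx).2
          _ ≤ D.card := Finset.card_image_le
          _ = j := hDcard
      have hDR : (D ∪ R).card ≤ r := by
        calc (D ∪ R).card ≤ D.card + R.card := Finset.card_union_le _ _
          _ ≤ r := by omega
      have hDRX : D ∪ R ⊆ X := by
        apply Finset.union_subset
        · exact hDsub.trans Finset.sdiff_subset
        · intro x hx
          exact hX'sub (Finset.mem_filter.mp hx).1
      obtain ⟨e, he1, he2, he3⟩ := Finset.exists_subsuperset_card_eq hDRX hDR hXr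
      have hDe : D ⊆ e := Finset.subset_union_left.trans he1
      have hcard : (e.image c).card ≤ r - j := by
        have himg : e.image c ⊆ (e \ D).image c := by
          intro y hy
          rw [Finset.mem_image] at hy
          obtain ⟨x, hx, rfl⟩ := hy
          by_cases hxD : x ∈ D
          · -- representative of x
            have hxX : x ∈ X := he2 hx
            have : c x ∈ X'.image c := by
              rw [hX'img]; exact Finset.mem_image_of_mem c hxX
            rw [Finset.mem_image] at this
            obtain ⟨x', hx', hcx⟩ := this
            have hx'R : x' ∈ R := by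
              rw [hR, Finset.mem_filter]
              refine ⟨hx', ?_⟩
              rw [hcx]; exact Finset.mem_image_of_mem c hxD
            have hx'e : x' ∈ e := he1 (Finset.mem_union_right _ hx'R)
            have hx'D : x' ∉ D := by
              intro h
              have := hDsub h
              rw [Finset.mem_sdiff] at this
              exact this.2 hx'
            rw [← hcx]
            exact Finset.mem_image_of_mem c (Finset.mem_sdiff.mpr ⟨hx'e, hx'D⟩)
          · exact Finset.mem_image_of_mem c (Finset.mem_sdiff.mpr ⟨hx, hxD⟩)
        calc (e.image c).card ≤ ((e \ D).image c).card := Finset.card_le_card himg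
          _ ≤ (e \ D).card := Finset.card_image_le
          _ = r - j := by rw [Finset.card_sdiff_of_subset hDe, he3, hDcard]
      apply hX e _ he2
      apply Finset.mem_union_left
      rw [famI, Finset.mem_filter, mem_powersetCard]
      exact ⟨⟨subset_univ _, he3⟩, hcard⟩
    · -- transversal edge
      push Not at hcol
      have hlarge : k' ≤ (X.image c).card := by
        have := Finset.card_image_le (s := X) (f := c)
        omega
      by_contra _
      have hnot : ¬ ((X.image c).card < k') := by omega
      apply hnot
      apply hH.2
      intro h hh hsub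
      -- lift h
      have hhc : h.card = r := hH.1 h hh
      set e := X'.filter (fun x => c x ∈ h) with he
      have heimg : e.image c = h := by
        ext y
        rw [Finset.mem_image]
        constructor
        · rintro ⟨x, hx, rfl⟩
          exact (Finset.mem_filter.mp hx).2
        · intro hy
          have : y ∈ X'.image c := by rw [hX'img]; exact hsub hy
          rw [Finset.mem_image] at this
          obtain ⟨x, hx, hcx⟩ := this
          refine ⟨x, ?_, hcx⟩
          rw [he, Finset.mem_filter]
          exact ⟨hx, by rw [hcx]; exact hy⟩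
      have hecard : e.card = r := by
        rw [← hhc, ← heimg, Finset.card_image_of_injOn]
        exact hX'inj.mono (by
          intro x hx
          exact (Finset.mem_filter.mp hx).1)
      have heX : e ⊆ X := (Finset.filter_subset _ _).trans hX'sub
      apply hX e _ heX
      apply Finset.mem_union_right
      rw [famII, Finset.mem_filter, mem_powersetCard]
      exact ⟨⟨subset_univ _, hecard⟩, by rw [heimg]; exact hh⟩

theorem famI_card (r s N : ℕ) (hs : s ≤ m)
    (hN : ∀ y : Fin m, ((univ : Finset (Fin n)).filter (fun x => c x = y)).card ≤ N) :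
    (famI c r s).card ≤ m.choose s * (s * N).choose r := by
  classical
  have hsub : famI c r s ⊆ (powersetCard s (univ : Finset (Fin m))).biUnion
      (fun S => powersetCard r ((univ : Finset (Fin n)).filter (fun x => c x ∈ S))) := by
    intro e he
    rw [famI, Finset.mem_filter, mem_powersetCard] at he
    obtain ⟨⟨_, he1⟩, he2⟩ := he
    have : s ≤ (univ : Finset (Fin m)).card := by
      rw [card_univ, Fintype.card_fin]; exact hs
    obtain ⟨S, hS1, _, hS3⟩ := Finset.exists_subsuperset_card_eq
      (Finset.subset_univ (e.image c)) he2 this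
    rw [Finset.mem_biUnion]
    refine ⟨S, mem_powersetCard.mpr ⟨subset_univ _, hS3⟩, ?_⟩
    rw [mem_powersetCard]
    refine ⟨?_, he1⟩
    intro x hx
    rw [Finset.mem_filter]
    exact ⟨Finset.mem_univ _, hS1 (Finset.mem_image_of_mem c hx)⟩
  calc (famI c r s).card ≤ _ := Finset.card_le_card hsub
    _ ≤ ∑ S ∈ powersetCard s (univ : Finset (Fin m)),
        (powersetCard r ((univ : Finset (Fin n)).filter (fun x => c x ∈ S))).card :=
        Finset.card_biUnion_le
    _ ≤ ∑ S ∈ powersetCard s (univ : Finset (Fin m)), (s * N).choose r := by
        apply Finset.sum_le_sum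
        intro S hS
        rw [card_powersetCard]
        apply Nat.choose_le_choose
        have hSc := (mem_powersetCard.mp hS).2
        calc ((univ : Finset (Fin n)).filter (fun x => c x ∈ S)).card
            ≤ ∑ y ∈ S, ((univ : Finset (Fin n)).filter (fun x => c x = y)).card := by
              rw [← Finset.card_biUnion]
              · apply Finset.card_le_card
                intro x hx
                rw [Finset.mem_filter] at hx
                rw [Finset.mem_biUnion]
                exact ⟨c x, hx.2, by rw [Finset.mem_filter]; exact ⟨Finset.mem_univ _, rfl⟩⟩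
              · intro y _ z _ hyz
                rw [Function.onFun, Finset.disjoint_left]
                intro x hx hx'
                rw [Finset.mem_filter] at hx hx'
                exact hyz (hx.2.symm.trans hx'.2)
          _ ≤ ∑ _y ∈ S, N := Finset.sum_le_sum fun y _ => hN y
          _ = s * N := by rw [Finset.sum_const, hSc, smul_eq_mul]
    _ = m.choose s * (s * N).choose r := by
        rw [Finset.sum_const, card_powersetCard, card_univ, Fintype.card_fin, smul_eq_mul]

theorem famII_card (r N : ℕ) (H : Finset (Finset (Fin m))) (hH : ∀ h ∈ H, h.card = r)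
    (hN : ∀ y : Fin m, ((univ : Finset (Fin n)).filter (fun x => c x = y)).card ≤ N) :
    (famII c r H).card ≤ H.card * N ^ r := by
  classical
  have hsub : famII c r H ⊆ H.biUnion
      (fun h => (powersetCard r (univ : Finset (Fin n))).filter (fun e => e.image c = h)) := by
    intro e he
    rw [famII, Finset.mem_filter] at he
    rw [Finset.mem_biUnion]
    exact ⟨e.image c, he.2, by rw [Finset.mem_filter]; exact ⟨he.1, rfl⟩⟩
  calc (famII c r H).card ≤ _ := Finset.card_le_card hsub
    _ ≤ ∑ h ∈ H, ((powersetCard r (univ : Finset (Fin n))).filter (fun e => e.image c = h)).card :=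
        Finset.card_biUnion_le
    _ ≤ ∑ _h ∈ H, N ^ r := by
        apply Finset.sum_le_sum
        intro h hh
        have hhr := hH h hh
        -- inject into the product of fibres
        have hle : ((powersetCard r (univ : Finset (Fin n))).filter (fun e => e.image c = h)).card ≤
            (h.pi (fun y => (univ : Finset (Fin n)).filter (fun x => c x = y))).card := by
          apply Finset.card_le_card_of_surjOn
            (fun f : (y : Fin m) → y ∈ h → Fin n => h.attach.image (fun y => f y.1 y.2))
          intro e he
          rw [Finset.mem_coe, Finset.mem_filter, mem_powersetCard] at he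
          obtain ⟨⟨_, her⟩, heh⟩ := he
          have hex : ∀ y : Fin m, y ∈ h → ∃ x ∈ e, c x = y := by
            intro y hy
            rw [← heh, Finset.mem_image] at hy
            exact hy
          choose f hf1 hf2 using hex
          refine ⟨f, ?_, ?_⟩
          · rw [Finset.mem_coe, Finset.mem_pi]
            intro y hy
            rw [Finset.mem_filter]
            exact ⟨Finset.mem_univ _, hf2 y hy⟩
          · apply Finset.eq_of_subset_of_card_le
            · intro x hx
              rw [Finset.mem_image] at hx
              obtain ⟨y, _, rfl⟩ := hx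
              exact hf1 y.1 y.2
            · rw [her, Finset.card_image_of_injective, Finset.card_attach, hhr]
              intro y z hyz
              have h1 := hf2 y.1 y.2
              have h2 := hf2 z.1 z.2
              have hyz' : f y.1 y.2 = f z.1 z.2 := hyz
              rw [hyz'] at h1
              exact Subtype.ext (h1.symm.trans h2)
        calc _ ≤ _ := hle
          _ = ∏ y ∈ h, ((univ : Finset (Fin n)).filter (fun x => c x = y)).card :=
              Finset.card_pi _ _
          _ ≤ ∏ _y ∈ h, N := Finset.prod_le_prod' fun y _ => hN y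
          _ = N ^ r := by rw [Finset.prod_const, hhr]
    _ = H.card * N ^ r := by rw [Finset.sum_const, smul_eq_mul]

end compose

end Pool.Agent.H35.Turan
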